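import Pool.Graph.R_pool_sql_team_seeded_efc1946e.K1H7.LE.Count

/-!
Second moments: preparations.
-/

set_option autoImplicit false

namespace Pool.Agent.H363.DT
open RC14 Pool.Agent.K1H7.EP Pool.Agent.K1H7.LE Finset Equiv

noncomputable section

/-- the number of elements with a property -/
def cnt {Ω : Type*} [Fintype Ω] (P : Ω → Prop) : ℕ := by
  classical exact #(univ.filter P)

section
variable {Ω : Type*} [Fintype Ω]

lemma cnt_eq (P : Ω → Prop) [h : DecidablePred P] : cnt P = #(univ.filter P) := by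
  have e : h = fun ω => Classical.propDecidable (P ω) := Subsingleton.elim _ _
  subst e
  rfl

lemma cnt_mono (P Q : Ω → Prop) (h : ∀ ω, P ω → Q ω) : cnt P ≤ cnt Q := by
  classical
  rw [cnt_eq, cnt_eq]
  refine Finset.card_le_card fun ω hω => ?_
  rw [Finset.mem_filter] at hω ⊢
  exact ⟨hω.1, h ω hω.2⟩

lemma cnt_congr (P Q : Ω → Prop) (h : ∀ ω, P ω ↔ Q ω) : cnt P = cnt Q :=
  le_antisymm (cnt_mono P Q fun ω => (h ω).1) (cnt_mono Q P fun ω => (h ω).2)

lemma cnt_or (P Q : Ω → Prop) : cnt (fun ω => P ω ∨ Q ω) ≤ cnt P + cnt Q := by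
  classical
  rw [cnt_eq, cnt_eq, cnt_eq]
  have e : (univ.filter fun ω => P ω ∨ Q ω) = univ.filter P ∪ univ.filter Q := by
    ext ω
    simp
  rw [e]
  exact Finset.card_union_le _ _

lemma cnt_not (P : Ω → Prop) : cnt P + cnt (fun ω => ¬ P ω) = Fintype.card Ω := by
  classical
  rw [cnt_eq, cnt_eq, Finset.card_filter_add_card_filter_not, Finset.card_univ]

lemma cnt_sum (P : Ω → Prop) (X : Ω → ℝ) (h1 : ∀ ω, P ω → X ω = 1) (h2 : ∀ ω, ¬ P ω → X ω = 0) :
    ∑ ω, X ω = cnt P := by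
  classical
  rw [cnt_eq, ← Finset.sum_boole]
  refine Finset.sum_congr rfl fun ω _ => ?_
  by_cases h : P ω
  · rw [if_pos h, h1 ω h]
  · rw [if_neg h, h2 ω h]

lemma cnt_inj {Ω' : Type*} [Fintype Ω'] (P : Ω → Prop) (Q : Ω' → Prop) (f : Ω → Ω')
    (h : ∀ ω, P ω → Q (f ω)) (hinj : ∀ ω ω', P ω → P ω' → f ω = f ω' → ω = ω') :
    cnt P ≤ cnt Q := by
  classical
  rw [cnt_eq, cnt_eq]
  refine Finset.card_le_card_of_injOn f ?_ ?_
  · intro ω hω
    simp only [Finset.coe_filter, Finset.mem_univ, true_and, Set.mem_ofPred_eq] at hω ⊢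
    exact h ω hω
  · intro ω hω ω' hω' he
    simp only [Finset.coe_filter, Finset.mem_univ, true_and, Set.mem_ofPred_eq] at hω hω'
    exact hinj ω ω' hω hω' he

lemma cnt_prod {Ω' : Type*} [Fintype Ω'] (P : Ω → Prop) (Q : Ω' → Prop) :
    cnt (fun z : Ω × Ω' => P z.1 ∧ Q z.2) = cnt P * cnt Q := by
  classical
  rw [cnt_eq, cnt_eq, cnt_eq, ← Finset.card_product]
  congr 1
  ext z
  simp

lemma cnt_fib {Ω' : Type*} [Fintype Ω'] (P : Ω → Prop) (Q : Ω' → Prop) (f : Ω → Ω') (Δ : ℕ)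
    (h : ∀ ω, P ω → Q (f ω)) (hf : ∀ ω', Q ω' → cnt (fun ω => P ω ∧ f ω = ω') ≤ Δ) :
    cnt P ≤ Δ * cnt Q := by
  classical
  rw [cnt_eq, cnt_eq]
  have h1 := Finset.card_le_mul_card_image (f := f) (univ.filter P) Δ ?_
  · refine h1.trans (Nat.mul_le_mul_left _ (Finset.card_le_card ?_))
    intro ω' hω'
    rw [Finset.mem_image] at hω'
    obtain ⟨ω, hω, rfl⟩ := hω'
    rw [Finset.mem_filter] at hω ⊢
    exact ⟨Finset.mem_univ _, h ω hω.2⟩
  · intro ω' hω'
    rw [Finset.mem_image] at hω'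
    obtain ⟨ω, hω, rfl⟩ := hω'
    rw [Finset.mem_filter] at hω
    have h2 := hf _ (h ω hω.2)
    rw [cnt_eq] at h2
    rwa [Finset.filter_filter]

/-- the second moment method -/
lemma pz {U : Type*} (S : Finset U) (A : U → Ω → Prop) (a b : ℝ) (ha0 : 0 ≤ a)
    (ha : a ≤ ∑ u ∈ S, (cnt (fun ω => A u ω) : ℝ))
    (hb : ∑ u ∈ S, ∑ u' ∈ S, (cnt (fun ω => A u ω ∧ A u' ω) : ℝ) ≤ b) :
    a ^ 2 ≤ cnt (fun ω => ∃ u ∈ S, A u ω) * b := by
  classical
  obtain ⟨X, hX⟩ : ∃ X : Ω → ℝ, X = fun ω => ∑ u ∈ S, if A u ω then (1 : ℝ) else 0 := ⟨_, rfl⟩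
  have h1 : ∑ ω, X ω = ∑ u ∈ S, (cnt (fun ω => A u ω) : ℝ) := by
    rw [hX, Finset.sum_comm]
    refine Finset.sum_congr rfl fun u _ => ?_
    exact cnt_sum (fun ω => A u ω) _ (fun ω h => if_pos h) (fun ω h => if_neg h)
  have h2 : ∑ ω, X ω ^ 2 = ∑ u ∈ S, ∑ u' ∈ S, (cnt (fun ω => A u ω ∧ A u' ω) : ℝ) := by
    rw [hX]
    calc ∑ ω, (∑ u ∈ S, if A u ω then (1 : ℝ) else 0) ^ 2
        = ∑ ω, ∑ u ∈ S, ∑ u' ∈ S, (if A u ω then (1 : ℝ) else 0) *
            (if A u' ω then (1 : ℝ) else 0) := by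
          refine Finset.sum_congr rfl fun ω _ => ?_
          rw [pow_two, Finset.sum_mul_sum]
      _ = _ := by
          rw [Finset.sum_comm]
          refine Finset.sum_congr rfl fun u _ => ?_
          rw [Finset.sum_comm]
          refine Finset.sum_congr rfl fun u' _ => ?_
          refine cnt_sum (fun ω => A u ω ∧ A u' ω) _ (fun ω h => ?_) (fun ω h => ?_)
          · rw [if_pos h.1, if_pos h.2, mul_one]
          · by_cases h1 : A u ω
            · rw [if_neg (fun h2 => h ⟨h1, h2⟩), mul_zero]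
            · rw [if_neg h1, zero_mul]
  have h3 : (∑ ω, X ω) ^ 2 ≤ cnt (fun ω => ∃ u ∈ S, A u ω) * ∑ ω, X ω ^ 2 := by
    have e1 : ∑ ω, X ω = ∑ ω ∈ univ.filter (fun ω => ∃ u ∈ S, A u ω), 1 * X ω := by
      rw [Finset.sum_filter]
      refine Finset.sum_congr rfl fun ω _ => ?_
      split_ifs with h
      · rw [one_mul]
      · rw [hX]
        push Not at h
        exact Finset.sum_eq_zero fun u hu => if_neg (h u hu)
    rw [e1]
    refine (Finset.sum_mul_sq_le_sq_mul_sq _ _ _).trans ?_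
    apply mul_le_mul
    · rw [one_pow, Finset.sum_const, nsmul_eq_mul, mul_one, cnt_eq]
    · exact Finset.sum_le_sum_of_subset_of_nonneg (Finset.filter_subset _ _)
        fun _ _ _ => by positivity
    · exact Finset.sum_nonneg fun _ _ => by positivity
    · positivity
  rw [h1, h2] at h3
  calc a ^ 2 ≤ (∑ u ∈ S, (cnt (fun ω => A u ω) : ℝ)) ^ 2 := pow_le_pow_left₀ ha0 ha 2
    _ ≤ _ := h3
    _ ≤ _ := mul_le_mul_of_nonneg_left hb (by positivity)

end

/-! ### tuples of pairs -/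

variable {r R n : ℕ}

/-- an embedding of the indices of pairs, as an embedding of the positions -/
def ex (u : Fin r ↪ Fin R) : Fin (r * 2) ↪ Fin (R * 2) :=
  finProdFinEquiv.symm.toEmbedding.trans
    ((u.prodMap (Function.Embedding.refl (Fin 2))).trans finProdFinEquiv.toEmbedding)

lemma jm_ex (u : Fin r ↪ Fin R) (J : Tup (R * 2) n) (i : Fin r) (b : ZMod 2) :
    jm ((ex u).trans J) (i, b) = jm J (u i, b) := by
  change J (finProdFinEquiv ((u.prodMap (Function.Embedding.refl (Fin 2)))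
    (finProdFinEquiv.symm (finProdFinEquiv ((i, b) : Fin r × Fin 2))))) = _
  rw [Equiv.symm_apply_apply]
  rfl

lemma tup_ext (s s' : Tup (r * 2) n) (h : ∀ i b, jm s (i, b) = jm s' (i, b)) : s = s' := by
  ext1 l
  obtain ⟨⟨i, b⟩, rfl⟩ := finProdFinEquiv.surjective l
  exact h i b

/-- the transposition of the pair `i` -/
def tr (J : Tup (R * 2) n) (i : Fin R) : Perm (Fin n) := Equiv.swap (jm J (i, 0)) (jm J (i, 1))

lemma tr_ex (u : Fin r ↪ Fin R) (J : Tup (R * 2) n) (i : Fin r) :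
    tr ((ex u).trans J) i = tr J (u i) := by
  unfold tr
  rw [jm_ex, jm_ex]

lemma tr_sq (J : Tup (R * 2) n) (i : Fin R) : tr J i * tr J i = 1 := Equiv.swap_mul_self _ _

lemma tr_inv (J : Tup (R * 2) n) (i : Fin R) : (tr J i)⁻¹ = tr J i := Equiv.swap_inv _ _

lemma ta_tr (J : Tup (R * 2) n) (i j : Fin R) (h : i ≠ j) :
    ((ta J (pe i j) : Alt n) : Perm (Fin n)) = tr J i * tr J j := by
  rw [ta_pe J i j h]
  rfl

lemma avgP {j : ℕ} (e : Fin j ↪ Fin (R * 2)) (hR : R * 2 ≤ n) (P : Tup j n → Prop) :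
    (cnt (fun J : Tup (R * 2) n => P (e.trans J)) : ℝ) =
      Fintype.card (Tup (R * 2) n) * ((cnt P : ℝ) / n.descFactorial j) := by
  classical
  have h1 := HIGHCaux.avg e hR (fun s => if P s then (1 : ℝ) else 0)
  have hc : (Fintype.card (Tup (R * 2) n) : ℝ) ≠ 0 := by
    have : Nonempty (Tup (R * 2) n) := ⟨Fin.castLEEmb hR⟩
    exact_mod_cast Fintype.card_ne_zero
  rw [card_tup (n := n) j, cnt_sum P _ (fun ω h => if_pos h) (fun ω h => if_neg h),
    cnt_sum (fun J : Tup (R * 2) n => P (e.trans J)) _ (fun ω h => if_pos h)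
      (fun ω h => if_neg h)] at h1
  rw [← h1, mul_div_cancel₀ _ hc]

/-! ### counting tuples -/

section
variable (L : Subgroup (Perm (Fin n)))

/-- number of pairs related to `g` -/
def dg (g : Perm (Fin n)) : ℕ := cnt (fun s : Tup (1 * 2) n => g * tr s 0 ∈ L)

/-- number of pairs of disjoint pairs, related -/
def n2 : ℕ := cnt (fun s : Tup (2 * 2) n => tr s 0 * tr s 1 ∈ L)

def n3 : ℕ := cnt (fun s : Tup (3 * 2) n => tr s 0 * tr s 1 ∈ L ∧ tr s 0 * tr s 2 ∈ L)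

def n4 : ℕ := cnt (fun s : Tup (4 * 2) n => tr s 0 * tr s 1 ∈ L ∧ tr s 2 * tr s 3 ∈ L)

/-- the embedding given by one index -/
def u1 (i : Fin R) : Fin 1 ↪ Fin R := ⟨![i], by
  intro x y _
  exact Subsingleton.elim _ _⟩

def u2 (i j : Fin R) (h : i ≠ j) : Fin 2 ↪ Fin R := ⟨![i, j], by
  have g := h.symm
  intro x y hxy
  fin_cases x <;> fin_cases y <;> first | rfl | (exact absurd hxy h) | (exact absurd hxy g)⟩

def u3 (i j k : Fin R) (h1 : i ≠ j) (h2 : i ≠ k) (h3 : j ≠ k) : Fin 3 ↪ Fin R :=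
  ⟨![i, j, k], by
  have g1 := h1.symm
  have g2 := h2.symm
  have g3 := h3.symm
  intro x y hxy
  fin_cases x <;> fin_cases y <;> first | rfl | (exact absurd hxy h1) | (exact absurd hxy g1) | (exact absurd hxy h2) | (exact absurd hxy g2) | (exact absurd hxy h3) | (exact absurd hxy g3)⟩

def u4 (i j k l : Fin R) (h1 : i ≠ j) (h2 : i ≠ k) (h3 : j ≠ k) (h4 : i ≠ l) (h5 : j ≠ l)
    (h6 : k ≠ l) : Fin 4 ↪ Fin R :=
  ⟨![i, j, k, l], by
  have g1 := h1.symm
  have g2 := h2.symm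
  have g3 := h3.symm
  have g4 := h4.symm
  have g5 := h5.symm
  have g6 := h6.symm
  intro x y hxy
  fin_cases x <;> fin_cases y <;> first | rfl | (exact absurd hxy h1) | (exact absurd hxy g1) | (exact absurd hxy h2) | (exact absurd hxy g2) | (exact absurd hxy h3) | (exact absurd hxy g3) | (exact absurd hxy h4) | (exact absurd hxy g4) | (exact absurd hxy h5) | (exact absurd hxy g5) | (exact absurd hxy h6) | (exact absurd hxy g6)⟩

lemma jm_eq {s t : Tup (R * 2) n} {u : Fin r ↪ Fin R} (h : (ex u).trans s = (ex u).trans t)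
    (i : Fin r) (b : ZMod 2) : jm s (u i, b) = jm t (u i, b) := by
  rw [← jm_ex, h, jm_ex]

lemma n3_le (Δ : ℕ) (hΔ : ∀ s : Tup (1 * 2) n, dg L (tr s 0) ≤ Δ) : n3 L ≤ Δ * n2 L := by
  refine cnt_fib _ _ (fun s => (ex (u2 (0 : Fin 3) 1 (by decide))).trans s) Δ ?_ ?_
  · intro s hs
    beta_reduce
    rw [tr_ex, tr_ex]
    exact hs.1
  · intro s' _
    refine le_trans ?_ (hΔ ((ex (u1 (0 : Fin 2))).trans s'))
    refine cnt_inj _ _ (fun s => (ex (u1 (2 : Fin 3))).trans s) ?_ ?_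
    · rintro s ⟨⟨-, h3⟩, rfl⟩
      rw [tr_ex, tr_ex, tr_ex]
      exact h3
    · rintro s t ⟨-, hs⟩ ⟨-, ht⟩ hst
      have e1 := hs.trans ht.symm
      beta_reduce at hst
      apply tup_ext
      intro i b
      fin_cases i
      · exact jm_eq e1 0 b
      · exact jm_eq e1 1 b
      · exact jm_eq hst 0 b

lemma n4_le : n4 L ≤ n2 L * n2 L := by
  unfold n4 n2
  rw [← cnt_prod]
  refine cnt_inj _ _ (fun s => ((ex (u2 (0 : Fin 4) 1 (by decide))).trans s,
    (ex (u2 (2 : Fin 4) 3 (by decide))).trans s)) ?_ ?_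
  · intro s hs
    beta_reduce
    rw [tr_ex, tr_ex, tr_ex, tr_ex]
    exact hs
  · intro s t _ _ hst
    beta_reduce at hst
    rw [Prod.mk.injEq] at hst
    apply tup_ext
    intro i b
    fin_cases i
    · exact jm_eq hst.1 0 b
    · exact jm_eq hst.1 1 b
    · exact jm_eq hst.2 0 b
    · exact jm_eq hst.2 1 b

/-- pairs of pairs related to `g` -/
lemma n22_le (g : Perm (Fin n)) :
    cnt (fun s : Tup (2 * 2) n => g * tr s 0 ∈ L ∧ g * tr s 1 ∈ L) ≤ dg L g * dg L g := by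
  unfold dg
  rw [← cnt_prod]
  refine cnt_inj _ _ (fun s => ((ex (u1 (0 : Fin 2))).trans s,
    (ex (u1 (1 : Fin 2))).trans s)) ?_ ?_
  · intro s hs
    beta_reduce
    rw [tr_ex, tr_ex]
    exact hs
  · intro s t _ _ hst
    beta_reduce at hst
    rw [Prod.mk.injEq] at hst
    apply tup_ext
    intro i b
    fin_cases i
    · exact jm_eq hst.1 0 b
    · exact jm_eq hst.2 0 b

end

end

end Pool.Agent.H363.DT
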