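import Pool.Agent.H363.DT.Count

/-!
Most tuples of pairs see the subgroup.
-/

set_option autoImplicit false

namespace Pool.Agent.H363.DT
open RC14 Pool.Agent.K1H7.EP Pool.Agent.K1H7.LE Finset Equiv

noncomputable section

variable {R n : ℕ}

lemma df2 (hn : 1000 ≤ n) : ((n.descFactorial (1 * 2) : ℕ) : ℝ) = (n : ℝ) * (n - 1) := by
  change ((n.descFactorial 2 : ℕ) : ℝ) = _
  rw [Nat.descFactorial_succ, Nat.descFactorial_one, Nat.cast_mul, Nat.cast_sub (by omega)]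
  push_cast; ring

lemma df4 (hn : 1000 ≤ n) : ((n.descFactorial (2 * 2) : ℕ) : ℝ) =
    (n : ℝ) * (n - 1) * (n - 2) * (n - 3) := by
  change ((n.descFactorial 4 : ℕ) : ℝ) = _
  have h := df2 hn
  change ((n.descFactorial 2 : ℕ) : ℝ) = _ at h
  rw [Nat.descFactorial_succ, Nat.descFactorial_succ, Nat.cast_mul, Nat.cast_mul, h,
      Nat.cast_sub (by omega), Nat.cast_sub (by omega)]
  push_cast; ring

lemma df6 (hn : 1000 ≤ n) : ((n.descFactorial (3 * 2) : ℕ) : ℝ) =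
    (n : ℝ) * (n - 1) * (n - 2) * (n - 3) * ((n - 4) * (n - 5)) := by
  change ((n.descFactorial 6 : ℕ) : ℝ) = _
  have h := df4 hn
  change ((n.descFactorial 4 : ℕ) : ℝ) = _ at h
  rw [Nat.descFactorial_succ, Nat.descFactorial_succ, Nat.cast_mul, Nat.cast_mul, h,
      Nat.cast_sub (by omega), Nat.cast_sub (by omega)]
  push_cast; ring

lemma df8 (hn : 1000 ≤ n) : ((n.descFactorial (4 * 2) : ℕ) : ℝ) =
    (n : ℝ) * (n - 1) * (n - 2) * (n - 3) * ((n - 4) * (n - 5) * (n - 6) * (n - 7)) := by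
  change ((n.descFactorial 8 : ℕ) : ℝ) = _
  have h := df6 hn
  change ((n.descFactorial 6 : ℕ) : ℝ) = _ at h
  rw [Nat.descFactorial_succ, Nat.descFactorial_succ, Nat.cast_mul, Nat.cast_mul, h,
      Nat.cast_sub (by omega), Nat.cast_sub (by omega)]
  push_cast; ring

lemma sum1 (I I' : Finset (Fin R)) (c : ℝ) :
    ∑ u ∈ I ×ˢ I', ∑ u' ∈ I ×ˢ I', (if u.1 = u'.1 then c else 0) = (#I * #I' : ℕ) * (#I' * c) := by
  have e : ∀ i ∈ I, ∑ u' ∈ I ×ˢ I', (if i = u'.1 then c else 0) = #I' * c := by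
    intro i hi
    rw [Finset.sum_product]
    have e1 : ∀ i' ∈ I, ∑ _j' ∈ I', (if i = i' then c else 0) =
        if i = i' then #I' * c else 0 := by
      intro i' _
      split_ifs
      · rw [Finset.sum_const, nsmul_eq_mul]
      · rw [Finset.sum_const_zero]
    rw [Finset.sum_congr rfl e1, Finset.sum_ite_eq, if_pos hi]
  rw [Finset.sum_congr rfl (fun u hu => e u.1 (Finset.mem_product.1 hu).1), Finset.sum_const,
    Finset.card_product, nsmul_eq_mul]

lemma sum2 (I I' : Finset (Fin R)) (c : ℝ) :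
    ∑ u ∈ I ×ˢ I', ∑ u' ∈ I ×ˢ I', (if u.2 = u'.2 then c else 0) = (#I * #I' : ℕ) * (#I * c) := by
  have e : ∀ j ∈ I', ∑ u' ∈ I ×ˢ I', (if j = u'.2 then c else 0) = #I * c := by
    intro j hj
    rw [Finset.sum_product_right]
    have e1 : ∀ j' ∈ I', ∑ _i' ∈ I, (if j = j' then c else 0) =
        if j = j' then #I * c else 0 := by
      intro j' _
      split_ifs
      · rw [Finset.sum_const, nsmul_eq_mul]
      · rw [Finset.sum_const_zero]
    rw [Finset.sum_congr rfl e1, Finset.sum_ite_eq, if_pos hj]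
  rw [Finset.sum_congr rfl (fun u hu => e u.2 (Finset.mem_product.1 hu).2), Finset.sum_const,
    Finset.card_product, nsmul_eq_mul]

variable (L : Subgroup (Perm (Fin n)))

/-- one sided count -/
lemma one_sided (hR : R * 2 ≤ n) (hn : 1000 ≤ n) (g : Perm (Fin n)) (I : Finset (Fin R)) (t : ℕ)
    (hI : #I = t) (h : 4 * (n : ℝ) ^ 2 ≤ t * dg L g) :
    4 * cnt (fun J : Tup (R * 2) n => ¬ ∃ i ∈ I, g * tr J i ∈ L) ≤
      Fintype.card (Tup (R * 2) n) := by
  obtain ⟨T, hTd⟩ : ∃ T : ℝ, T = Fintype.card (Tup (R * 2) n) := ⟨_, rfl⟩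
  have hTp : 0 < T := by
    rw [hTd]
    have : Nonempty (Tup (R * 2) n) := ⟨Fin.castLEEmb hR⟩
    exact_mod_cast Fintype.card_pos
  have hn' : (1000 : ℝ) ≤ n := by exact_mod_cast hn
  obtain ⟨e, he⟩ : ∃ e : ℝ, e = dg L g := ⟨_, rfl⟩
  rw [← he] at h
  have he0 : 0 ≤ e := by rw [he]; positivity
  obtain ⟨p, hp⟩ : ∃ p : ℝ, p = e / ((n : ℝ) * (n - 1)) := ⟨_, rfl⟩
  have hd2 : 0 < (n : ℝ) * (n - 1) := by apply mul_pos <;> linarith
  have hd4 : 0 < (n : ℝ) * (n - 1) * (n - 2) * (n - 3) := by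
    apply mul_pos (mul_pos hd2 _) <;> linarith
  have hp0 : 0 ≤ p := by rw [hp]; positivity
  have ht0 : (0 : ℝ) ≤ t := by positivity
  have htp : 4 ≤ t * p := by
    rw [hp, mul_div_assoc', le_div_iff₀ hd2]
    nlinarith
  -- the first moment
  have h1 : ∀ i ∈ I, (cnt (fun J : Tup (R * 2) n => g * tr J i ∈ L) : ℝ) = T * p := by
    intro i _
    have e1 := avgP (n := n) (ex (u1 i)) hR (fun s : Tup (1 * 2) n => g * tr s 0 ∈ L)
    simp only [tr_ex] at e1
    rw [df2 hn] at e1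
    rw [hp, hTd, he]
    exact e1
  have h2 : ∀ i ∈ I, ∀ i' ∈ I, (cnt (fun J : Tup (R * 2) n =>
      g * tr J i ∈ L ∧ g * tr J i' ∈ L) : ℝ) ≤
      T * (101 / 100 * (p * p)) + (if i = i' then T * p else 0) := by
    intro i hi i' hi'
    by_cases hii : i = i'
    · subst hii
      rw [if_pos rfl]
      simp only [and_self]
      rw [h1 i hi]
      have : 0 ≤ T * (101 / 100 * (p * p)) := by positivity
      linarith
    · rw [if_neg hii, add_zero]
      have e1 := avgP (n := n) (ex (u2 i i' hii)) hR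
        (fun s : Tup (2 * 2) n => g * tr s 0 ∈ L ∧ g * tr s 1 ∈ L)
      simp only [tr_ex] at e1
      rw [df4 hn, ← hTd] at e1
      have e0 : ∀ J : Tup (R * 2) n, (g * tr J ((u2 i i' hii) 0) ∈ L ∧
        g * tr J ((u2 i i' hii) 1) ∈ L) ↔ (g * tr J i ∈ L ∧ g * tr J i' ∈ L) := fun J => Iff.rfl
      simp only [e0] at e1
      rw [e1]
      apply mul_le_mul_of_nonneg_left _ hTp.le
      have e2 : (cnt (fun s : Tup (2 * 2) n => g * tr s 0 ∈ L ∧ g * tr s 1 ∈ L) : ℝ) ≤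
          e * e := by
        rw [he]
        exact_mod_cast n22_le L g
      have e3 : e * e / ((n : ℝ) * (n - 1) * (n - 2) * (n - 3)) ≤ 101 / 100 * (p * p) := by
        rw [hp, div_mul_div_comm, mul_div_assoc', div_le_div_iff₀ hd4 (by positivity)]
        have e3 : (n : ℝ) * (n - 1) ≤ 101 / 100 * ((n - 2) * (n - 3)) := by nlinarith
        have e4 : 0 ≤ e * e * ((n : ℝ) * (n - 1)) := by positivity
        calc e * e * ((n : ℝ) * (n - 1) * (n * (n - 1)))
            = e * e * ((n : ℝ) * (n - 1)) * (n * (n - 1)) := by ring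
          _ ≤ e * e * ((n : ℝ) * (n - 1)) * (101 / 100 * ((n - 2) * (n - 3))) :=
            mul_le_mul_of_nonneg_left e3 e4
          _ = _ := by ring
      exact (div_le_div_of_nonneg_right e2 hd4.le).trans e3
  have h3 := pz I (fun i (J : Tup (R * 2) n) => g * tr J i ∈ L) (T * (t * p))
    (T * (101 / 100 * (t * p) ^ 2 + t * p)) (by positivity) (by
      rw [Finset.sum_congr rfl h1, Finset.sum_const, nsmul_eq_mul, hI]
      apply le_of_eq; ring) (by
      refine (Finset.sum_le_sum fun i hi => Finset.sum_le_sum fun i' hi' =>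
        h2 i hi i' hi').trans (le_of_eq ?_)
      simp only [Finset.sum_add_distrib, Finset.sum_const, nsmul_eq_mul, Finset.sum_ite_eq]
      rw [Finset.sum_ite_mem, Finset.inter_self, Finset.sum_const, nsmul_eq_mul, hI]
      ring)
  obtain ⟨b, hb⟩ : ∃ b : ℝ, b = cnt (fun J : Tup (R * 2) n => ∃ i ∈ I, g * tr J i ∈ L) :=
    ⟨_, rfl⟩
  rw [← hb] at h3
  have hb0 : 0 ≤ b := by rw [hb]; positivity
  obtain ⟨a, ha⟩ : ∃ a, a = t * p := ⟨_, rfl⟩
  rw [← ha] at h3 htp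
  have h4 : T * a ≤ b * (101 / 100 * a + 1) := by
    have e1 : (T * a) * (T * a) ≤ (T * a) * (b * (101 / 100 * a + 1)) := by
      calc (T * a) * (T * a) = (T * a) ^ 2 := by ring
        _ ≤ _ := h3
        _ = _ := by ring
    exact le_of_mul_le_mul_left e1 (by positivity)
  have h5 : 3 * T ≤ 4 * b := by
    by_contra hcon
    push Not at hcon
    have e1 : b * (101 / 100 * a + 1) < 3 / 4 * T * (101 / 100 * a + 1) := by
      apply mul_lt_mul_of_pos_right _ (by linarith)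
      linarith
    nlinarith
  have h6 := cnt_not (fun J : Tup (R * 2) n => ∃ i ∈ I, g * tr J i ∈ L)
  have h7 : b + (cnt (fun J : Tup (R * 2) n => ¬ ∃ i ∈ I, g * tr J i ∈ L) : ℝ) = T := by
    rw [hb, hTd]; exact_mod_cast h6
  have h8 : 4 * (cnt (fun J : Tup (R * 2) n => ¬ ∃ i ∈ I, g * tr J i ∈ L) : ℝ) ≤
      Fintype.card (Tup (R * 2) n) := by
    rw [← hTd]; linarith
  exact_mod_cast h8

/-- two sided count for small degrees -/
lemma two_sided (hR : R * 2 ≤ n) (hn : 1000 ≤ n) (I I' : Finset (Fin R)) (hd : Disjoint I I')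
    (t : ℕ) (hI : #I = t) (hI' : #I' = t) (Δ : ℕ) (hΔ : ∀ s : Tup (1 * 2) n, dg L (tr s 0) ≤ Δ)
    (h : 16 * (n : ℝ) ^ 4 ≤ t ^ 2 * n2 L) (h' : 4 * (Δ : ℝ) * n ^ 2 ≤ t * n2 L) :
    2 * cnt (fun J : Tup (R * 2) n => ¬ ∃ i ∈ I, ∃ j ∈ I', tr J i * tr J j ∈ L) ≤
      Fintype.card (Tup (R * 2) n) := by
  obtain ⟨T, hTd⟩ : ∃ T : ℝ, T = Fintype.card (Tup (R * 2) n) := ⟨_, rfl⟩
  have hTp : 0 < T := by
    rw [hTd]
    have : Nonempty (Tup (R * 2) n) := ⟨Fin.castLEEmb hR⟩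
    exact_mod_cast Fintype.card_pos
  have hn' : (1000 : ℝ) ≤ n := by exact_mod_cast hn
  have hne : ∀ i ∈ I, ∀ j ∈ I', i ≠ j := by
    rintro i hi j hj rfl
    exact Finset.disjoint_left.1 hd hi hj
  obtain ⟨D, hD⟩ : ∃ D : ℝ, D = n2 L := ⟨_, rfl⟩
  rw [← hD] at h h'
  have hD0 : 0 ≤ D := by rw [hD]; positivity
  have hΔ0 : (0 : ℝ) ≤ Δ := by positivity
  have ht0 : (0 : ℝ) ≤ t := by positivity
  obtain ⟨d, hd4⟩ : ∃ d : ℝ, d = (n : ℝ) * (n - 1) * (n - 2) * (n - 3) := ⟨_, rfl⟩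
  have hd0 : 0 < d := by
    rw [hd4]
    apply mul_pos (mul_pos (mul_pos _ _) _) <;> linarith
  obtain ⟨κ, hκ⟩ : ∃ κ : ℝ, κ = D / d := ⟨_, rfl⟩
  have hκ0 : 0 ≤ κ := by rw [hκ]; positivity
  have hdn : d ≤ (n : ℝ) ^ 4 := by
    rw [hd4]
    have e1 : (n : ℝ) * (n - 1) ≤ n * n := by nlinarith
    have e2 : ((n : ℝ) - 2) * (n - 3) ≤ n * n := by nlinarith
    calc (n : ℝ) * (n - 1) * (n - 2) * (n - 3) = (n * (n - 1)) * ((n - 2) * (n - 3)) := by ring
      _ ≤ (n * n) * (n * n) := by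
        apply mul_le_mul e1 e2
        · apply mul_nonneg <;> linarith
        · positivity
      _ = _ := by ring
  have hκt : 16 ≤ t ^ 2 * κ := by
    rw [hκ, mul_div_assoc', le_div_iff₀ hd0]
    linarith
  -- the other densities
  obtain ⟨κ3, hκ3⟩ : ∃ κ3 : ℝ, κ3 = (n3 L : ℝ) / (d * ((n - 4) * (n - 5))) := ⟨_, rfl⟩
  obtain ⟨κ4, hκ4⟩ : ∃ κ4 : ℝ, κ4 = (n4 L : ℝ) / (d * ((n - 4) * (n - 5) * (n - 6) * (n - 7))) :=
    ⟨_, rfl⟩
  have hm6 : 0 < ((n : ℝ) - 4) * (n - 5) := by apply mul_pos <;> linarith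
  have hm8 : 0 < ((n : ℝ) - 4) * (n - 5) * (n - 6) * (n - 7) := by
    apply mul_pos (mul_pos hm6 _) <;> linarith
  have hκ30 : 0 ≤ κ3 := by rw [hκ3]; positivity
  have hκ40 : 0 ≤ κ4 := by rw [hκ4]; positivity
  have hn3 : (n3 L : ℝ) ≤ Δ * D := by
    rw [hD]
    exact_mod_cast n3_le L Δ hΔ
  have hn4 : (n4 L : ℝ) ≤ D * D := by
    rw [hD]
    exact_mod_cast n4_le L
  have hb3 : t * κ3 ≤ 3 / 8 * (t ^ 2 * (κ * κ)) := by
    have e1 : κ3 ≤ Δ * D / (d * ((n - 4) * (n - 5))) := by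
      rw [hκ3]
      exact div_le_div_of_nonneg_right hn3 (by positivity)
    have e2 : Δ * D / (d * ((n - 4) * (n - 5))) = κ * (Δ / (((n : ℝ) - 4) * (n - 5))) := by
      rw [hκ]; field_simp
    have e3 : (Δ : ℝ) / (((n : ℝ) - 4) * (n - 5)) ≤ 3 / 8 * (t * κ) := by
      rw [div_le_iff₀ hm6, hκ]
      have e4 : (Δ : ℝ) ≤ t * D / (4 * n ^ 2) := by
        rw [le_div_iff₀ (by positivity)]
        linarith
      refine e4.trans ?_
      rw [div_le_iff₀ (by positivity)]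
      have e5 : 3 / 8 * (t * (D / d)) * (((n : ℝ) - 4) * (n - 5)) * (4 * n ^ 2) =
        t * D * (3 / 2 * ((((n : ℝ) - 4) * (n - 5)) * n ^ 2) / d) := by
          field_simp
          ring
      rw [e5]
      have e6 : 1 ≤ 3 / 2 * ((((n : ℝ) - 4) * (n - 5)) * n ^ 2) / d := by
        rw [le_div_iff₀ hd0, one_mul, hd4]
        have f1 : (n : ℝ) * (n - 1) ≤ n ^ 2 := by nlinarith
        have f2 : ((n : ℝ) - 2) * (n - 3) ≤ 3 / 2 * ((n - 4) * (n - 5)) := by nlinarith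
        calc (n : ℝ) * (n - 1) * (n - 2) * (n - 3) = (n * (n - 1)) * ((n - 2) * (n - 3)) := by ring
          _ ≤ n ^ 2 * (3 / 2 * ((n - 4) * (n - 5))) := by
            apply mul_le_mul f1 f2
            · apply mul_nonneg <;> linarith
            · positivity
          _ = _ := by ring
      have e7 : 0 ≤ t * D := by positivity
      nlinarith
    calc t * κ3 ≤ t * (κ * (3 / 8 * (t * κ))) := by
          apply mul_le_mul_of_nonneg_left _ ht0
          refine e1.trans ?_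
          rw [e2]
          exact mul_le_mul_of_nonneg_left e3 hκ0
      _ = _ := by ring
  have hb4 : κ4 ≤ 11 / 10 * (κ * κ) := by
    have e1 : κ4 ≤ D * D / (d * ((n - 4) * (n - 5) * (n - 6) * (n - 7))) := by
      rw [hκ4]
      exact div_le_div_of_nonneg_right hn4 (by positivity)
    refine e1.trans ?_
    rw [hκ, div_mul_div_comm, mul_div_assoc', div_le_div_iff₀ (by positivity) (by positivity)]
    have e2 : d ≤ 11 / 10 * (((n : ℝ) - 4) * (n - 5) * (n - 6) * (n - 7)) := by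
      rw [hd4]
      have f1 : (n : ℝ) * (n - 1) ≤ 104 / 100 * ((n - 4) * (n - 5)) := by nlinarith
      have f2 : ((n : ℝ) - 2) * (n - 3) ≤ 104 / 100 * ((n - 6) * (n - 7)) := by nlinarith
      calc (n : ℝ) * (n - 1) * (n - 2) * (n - 3) = (n * (n - 1)) * ((n - 2) * (n - 3)) := by ring
        _ ≤ (104 / 100 * ((n - 4) * (n - 5))) * (104 / 100 * ((n - 6) * (n - 7))) := by
          apply mul_le_mul f1 f2
          · apply mul_nonneg <;> linarith
          · positivity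
        _ = (104 / 100) ^ 2 * (((n : ℝ) - 4) * (n - 5) * (n - 6) * (n - 7)) := by ring
        _ ≤ _ := by
          apply mul_le_mul_of_nonneg_right _ hm8.le
          norm_num
    have e3 : 0 ≤ D * D * d := by positivity
    calc D * D * (d * d) = D * D * d * d := by ring
      _ ≤ D * D * d * (11 / 10 * (((n : ℝ) - 4) * (n - 5) * (n - 6) * (n - 7))) :=
        mul_le_mul_of_nonneg_left e2 e3
      _ = _ := by ring
  -- the moments
  have c2 : ∀ i j : Fin R, i ≠ j →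
      (cnt (fun J : Tup (R * 2) n => tr J i * tr J j ∈ L) : ℝ) = T * κ := by
    intro i j hij
    have e1 := avgP (n := n) (ex (u2 i j hij)) hR (fun s : Tup (2 * 2) n => tr s 0 * tr s 1 ∈ L)
    simp only [tr_ex] at e1
    rw [df4 hn, ← hTd, ← hd4] at e1
    rw [hκ, hD]
    exact e1
  have c3 : ∀ i j k : Fin R, i ≠ j → i ≠ k → j ≠ k →
      (cnt (fun J : Tup (R * 2) n => tr J i * tr J j ∈ L ∧ tr J i * tr J k ∈ L) : ℝ) =
        T * κ3 := by
    intro i j k hij hik hjk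
    have e1 := avgP (n := n) (ex (u3 i j k hij hik hjk)) hR
      (fun s : Tup (3 * 2) n => tr s 0 * tr s 1 ∈ L ∧ tr s 0 * tr s 2 ∈ L)
    simp only [tr_ex] at e1
    rw [df6 hn, ← hTd, ← hd4] at e1
    rw [hκ3]
    exact e1
  have c4 : ∀ i j k l : Fin R, i ≠ j → i ≠ k → j ≠ k → i ≠ l → j ≠ l → k ≠ l →
      (cnt (fun J : Tup (R * 2) n => tr J i * tr J j ∈ L ∧ tr J k * tr J l ∈ L) : ℝ) =
        T * κ4 := by
    intro i j k l a1 a2 a3 a4 a5 a6
    have e1 := avgP (n := n) (ex (u4 i j k l a1 a2 a3 a4 a5 a6)) hR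
      (fun s : Tup (4 * 2) n => tr s 0 * tr s 1 ∈ L ∧ tr s 2 * tr s 3 ∈ L)
    simp only [tr_ex] at e1
    rw [df8 hn, ← hTd, ← hd4] at e1
    rw [hκ4]
    exact e1
  have hsym : ∀ (J : Tup (R * 2) n) (i j : Fin R), tr J i * tr J j ∈ L ↔ tr J j * tr J i ∈ L := by
    intro J i j
    constructor
    · intro hh
      have := L.inv_mem hh
      rwa [mul_inv_rev, tr_inv, tr_inv] at this
    · intro hh
      have := L.inv_mem hh
      rwa [mul_inv_rev, tr_inv, tr_inv] at this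
  have h2 : ∀ u ∈ I ×ˢ I', ∀ u' ∈ I ×ˢ I', (cnt (fun J : Tup (R * 2) n =>
      tr J u.1 * tr J u.2 ∈ L ∧ tr J u'.1 * tr J u'.2 ∈ L) : ℝ) ≤
      T * κ4 + (if u.1 = u'.1 then T * κ3 else 0) + (if u.2 = u'.2 then T * κ3 else 0) +
        (if u = u' then T * κ else 0) := by
    rintro ⟨i, j⟩ hu ⟨i', j'⟩ hu'
    rw [Finset.mem_product] at hu hu'
    have a1 : i ≠ j := hne i hu.1 j hu.2
    have a2 : i' ≠ j' := hne i' hu'.1 j' hu'.2
    have a3 : i ≠ j' := hne i hu.1 j' hu'.2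
    have a4 : i' ≠ j := hne i' hu'.1 j hu.2
    have p4 : 0 ≤ T * κ4 := by positivity
    have p3 : 0 ≤ T * κ3 := by positivity
    have p2 : 0 ≤ T * κ := by positivity
    by_cases hi : i = i'
    · subst hi
      by_cases hj : j = j'
      · subst hj
        simp only [and_self, if_true]
        rw [c2 i j a1]
        linarith
      · have e1 : ¬ ((i, j) = (i, j')) := by
          intro hh
          exact hj (congrArg Prod.snd hh)
        simp only [if_true, if_neg hj, if_neg e1]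
        rw [c3 i j j' a1 a3 hj]
        linarith
    · by_cases hj : j = j'
      · subst hj
        have e1 : ¬ ((i, j) = (i', j)) := by
          intro hh
          exact hi (congrArg Prod.fst hh)
        simp only [if_true, if_neg hi, if_neg e1]
        have e2 := cnt_congr (fun J : Tup (R * 2) n => tr J i * tr J j ∈ L ∧
            tr J i' * tr J j ∈ L) (fun J : Tup (R * 2) n => tr J j * tr J i ∈ L ∧
            tr J j * tr J i' ∈ L) (fun J => by rw [hsym J i j, hsym J i' j])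
        rw [e2, c3 j i i' a1.symm a4.symm hi]
        linarith
      · have e1 : ¬ ((i, j) = (i', j')) := by
          intro hh
          exact hi (congrArg Prod.fst hh)
        simp only [if_neg hi, if_neg hj, if_neg e1, add_zero]
        rw [c4 i j i' j' a1 hi a4.symm a3 hj a2]
  have hfirst : ∀ u ∈ I ×ˢ I',
      (cnt (fun J : Tup (R * 2) n => tr J u.1 * tr J u.2 ∈ L) : ℝ) = T * κ := by
    intro u hu
    rw [Finset.mem_product] at hu
    exact c2 _ _ (hne _ hu.1 _ hu.2)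
  have h3 := pz (I ×ˢ I') (fun u (J : Tup (R * 2) n) => tr J u.1 * tr J u.2 ∈ L)
    (T * (t ^ 2 * κ)) (T * (t ^ 4 * κ4 + 2 * t ^ 3 * κ3 + t ^ 2 * κ)) (by positivity) (by
      rw [Finset.sum_congr rfl hfirst, Finset.sum_const, nsmul_eq_mul, Finset.card_product, hI,
        hI']
      apply le_of_eq
      push_cast
      ring) (by
      refine (Finset.sum_le_sum fun u hu => Finset.sum_le_sum fun u' hu' =>
        h2 u hu u' hu').trans (le_of_eq ?_)
      simp only [Finset.sum_add_distrib]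
      rw [sum1, sum2]
      simp only [Finset.sum_const, nsmul_eq_mul, Finset.sum_ite_eq, Finset.card_product, hI, hI']
      rw [Finset.sum_ite_mem, Finset.inter_self, Finset.sum_const, nsmul_eq_mul,
        Finset.card_product, hI, hI']
      push_cast
      ring)
  obtain ⟨b, hb⟩ : ∃ b : ℝ, b = cnt (fun J : Tup (R * 2) n =>
    ∃ i ∈ I, ∃ j ∈ I', tr J i * tr J j ∈ L) := ⟨_, rfl⟩
  have hb' : (cnt (fun J : Tup (R * 2) n => ∃ u ∈ I ×ˢ I',
      tr J u.1 * tr J u.2 ∈ L) : ℝ) = b := by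
    rw [hb]
    congr 1
    apply cnt_congr
    intro J
    simp only [Prod.exists, Finset.mem_product]
    constructor
    · rintro ⟨i, j, ⟨a1, a2⟩, a3⟩
      exact ⟨i, a1, j, a2, a3⟩
    · rintro ⟨i, a1, j, a2, a3⟩
      exact ⟨i, j, ⟨a1, a2⟩, a3⟩
  rw [hb'] at h3
  have hb0 : 0 ≤ b := by rw [hb]; positivity
  obtain ⟨a, ha⟩ : ∃ a : ℝ, a = t ^ 2 * κ := ⟨_, rfl⟩
  rw [← ha] at h3 hκt
  have h4 : (t : ℝ) ^ 4 * κ4 + 2 * t ^ 3 * κ3 + a ≤ 2 * a ^ 2 := by
    have e1 : (t : ℝ) ^ 4 * κ4 ≤ 11 / 10 * a ^ 2 := by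
      calc (t : ℝ) ^ 4 * κ4 ≤ t ^ 4 * (11 / 10 * (κ * κ)) :=
            mul_le_mul_of_nonneg_left hb4 (by positivity)
        _ = _ := by rw [ha]; ring
    have e2 : 2 * (t : ℝ) ^ 3 * κ3 ≤ 3 / 4 * a ^ 2 := by
      calc 2 * (t : ℝ) ^ 3 * κ3 = 2 * t ^ 2 * (t * κ3) := by ring
        _ ≤ 2 * t ^ 2 * (3 / 8 * (t ^ 2 * (κ * κ))) :=
          mul_le_mul_of_nonneg_left hb3 (by positivity)
        _ = _ := by rw [ha]; ring
    nlinarith
  have h5 : T ≤ 2 * b := by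
    have e1 : (T * a) ^ 2 ≤ b * (T * (2 * a ^ 2)) := by
      refine h3.trans ?_
      apply mul_le_mul_of_nonneg_left _ hb0
      exact mul_le_mul_of_nonneg_left h4 hTp.le
    have e2 : (T * a ^ 2) * T ≤ (T * a ^ 2) * (2 * b) := by
      calc (T * a ^ 2) * T = (T * a) ^ 2 := by ring
        _ ≤ _ := e1
        _ = _ := by ring
    exact le_of_mul_le_mul_left e2 (by positivity)
  have h6 := cnt_not (fun J : Tup (R * 2) n => ∃ i ∈ I, ∃ j ∈ I', tr J i * tr J j ∈ L)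
  have h7 : b + (cnt (fun J : Tup (R * 2) n =>
      ¬ ∃ i ∈ I, ∃ j ∈ I', tr J i * tr J j ∈ L) : ℝ) = T := by
    rw [hb, hTd]; exact_mod_cast h6
  have h8 : 2 * (cnt (fun J : Tup (R * 2) n =>
      ¬ ∃ i ∈ I, ∃ j ∈ I', tr J i * tr J j ∈ L) : ℝ) ≤ Fintype.card (Tup (R * 2) n) := by
    rw [← hTd]; linarith
  exact_mod_cast h8

/-- **most tuples of pairs see the subgroup** -/
theorem count2 (hR : R * 2 ≤ n) (hn : 1000 ≤ n) (I I' : Finset (Fin R)) (hd : Disjoint I I')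
    (t : ℕ) (hI : t ≤ #I) (hI' : t ≤ #I') (h : 16 * (n : ℝ) ^ 4 ≤ t ^ 2 * n2 L) :
    2 * cnt (fun J : Tup (R * 2) n => ¬ ∃ i ∈ I, ∃ j ∈ I', tr J i * tr J j ∈ L) ≤
      Fintype.card (Tup (R * 2) n) := by
  obtain ⟨K, hK, hKt⟩ := Finset.exists_subset_card_eq hI
  obtain ⟨K', hK', hKt'⟩ := Finset.exists_subset_card_eq hI'
  have hn' : (1000 : ℝ) ≤ n := by exact_mod_cast hn
  have hmono : cnt (fun J : Tup (R * 2) n => ¬ ∃ i ∈ I, ∃ j ∈ I', tr J i * tr J j ∈ L) ≤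
      cnt (fun J : Tup (R * 2) n => ¬ ∃ i ∈ K, ∃ j ∈ K', tr J i * tr J j ∈ L) := by
    apply cnt_mono
    rintro J hJ ⟨i, hi, j, hj, hij⟩
    exact hJ ⟨i, hK hi, j, hK' hj, hij⟩
  refine (Nat.mul_le_mul_left 2 hmono).trans ?_
  by_cases hc : ∃ s : Tup (1 * 2) n, t * n2 L < 4 * dg L (tr s 0) * n ^ 2
  · obtain ⟨s, hs⟩ := hc
    obtain ⟨g, hg⟩ : ∃ g, g = tr s 0 := ⟨_, rfl⟩
    rw [← hg] at hs
    have hs' : (t : ℝ) * n2 L ≤ 4 * dg L g * n ^ 2 := by exact_mod_cast hs.le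
    have h1 : 4 * (n : ℝ) ^ 2 ≤ t * dg L g := by
      have ht0 : (0 : ℝ) ≤ t := by positivity
      have e1 := mul_le_mul_of_nonneg_left hs' ht0
      have e2 : (4 * (n : ℝ) ^ 2) * (4 * n ^ 2) ≤ (t * dg L g) * (4 * n ^ 2) := by nlinarith
      exact le_of_mul_le_mul_right e2 (by positivity)
    have h2 := one_sided L hR hn g K t hKt h1
    have h3 := one_sided L hR hn g K' t hKt' h1
    have e1 : cnt (fun J : Tup (R * 2) n => ¬ ∃ i ∈ K, ∃ j ∈ K', tr J i * tr J j ∈ L) ≤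
        cnt (fun J : Tup (R * 2) n => (¬ ∃ i ∈ K, g * tr J i ∈ L) ∨
          ¬ ∃ i ∈ K', g * tr J i ∈ L) := by
      apply cnt_mono
      intro J hJ
      by_contra hcon
      push Not at hcon
      obtain ⟨⟨i, hi, hi2⟩, ⟨j, hj, hj2⟩⟩ := hcon
      refine hJ ⟨i, hi, j, hj, ?_⟩
      have := L.mul_mem (L.inv_mem hi2) hj2
      rw [mul_inv_rev, tr_inv] at this
      have e3 : tr J i * g⁻¹ * (g * tr J j) = tr J i * tr J j := by group
      rwa [e3] at this
    have e2 := e1.trans (cnt_or _ _)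
    omega
  · push Not at hc
    obtain ⟨Δ, hΔd⟩ : ∃ Δ : ℕ, Δ = (t * n2 L) / (4 * n ^ 2) := ⟨_, rfl⟩
    have hnp : 0 < 4 * n ^ 2 := by positivity
    refine two_sided L hR hn K K' (Disjoint.mono hK hK' hd) t hKt hKt' Δ (fun s => ?_) h ?_
    · rw [hΔd, Nat.le_div_iff_mul_le hnp]
      refine le_trans (le_of_eq ?_) (hc s)
      ring
    · have e1 : Δ * (4 * n ^ 2) ≤ t * n2 L := by
        rw [hΔd]; exact Nat.div_mul_le_self _ _
      have e2 : (Δ : ℝ) * (4 * n ^ 2) ≤ t * n2 L := by exact_mod_cast e1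
      linarith

end

end Pool.Agent.H363.DT
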