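import Pool.Agent.H363.DT.Irr
import Pool.Graph.R_pool_sql_team_seeded_efc1946e.K1H7.LE.Det
import Pool.Graph.R_pool_sql_team_seeded_efc1946e.K1H7.LE.Fin

/-!
The spectral gap of tuples which expand on small tuples of points, together with an expanding tuple
of a subgroup with many double transpositions.
-/

set_option autoImplicit false

namespace Pool.Agent.H363.DT
open RC14 Pool.Agent.K1H7.EP Pool.Agent.K1H7.LE Finset Equiv Filter Topology TE852

noncomputable section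

/-- functions of high level -/
theorem highL {n r k l R : ℕ} (hn : 1000 ≤ n) (hR : R * 2 + 2 ≤ n) (t N : ℕ)
    (hN : 100 ≤ N) (hr : ∀ j : ℕ, N * j ≤ n → j ≤ r)
    (ht : 32 * (t : ℝ) < (R - 1) * (1 / (7 * (N : ℝ))))
    (L : Subgroup (Alt n)) [Fintype L] (htm : 16 * (n : ℝ) ^ 4 ≤ t ^ 2 * n2 (up L))
    (x : Fin k → Alt n) (c : ℝ) (hc : 0 < c)
    (hgap : ∀ f : RC14.V (R * 2) n, ∑ a, f a = 0 → c * ‖f‖ ^ 2 ≤ En (repA (R * 2) n) x f)
    (hl : 1 ≤ l) (s : Fin l → L) (ε : ℝ) (hε : 0 < ε)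
    (hs : Expanding ε s) (v : FA n) (hv : v ∈ HH r n) :
    c1 c k (l * ε) * ‖v‖ ^ 2 ≤ En (RR n) (Fin.append x (fun i => L.subtype (s i))) v := by
  have hl' : (0 : ℝ) < l := by exact_mod_cast hl
  obtain ⟨y, hy⟩ : ∃ y, y = Fin.append x (fun i => L.subtype (s i)) := ⟨_, rfl⟩
  rw [← hy]
  obtain ⟨D, W, -, hW, hdec⟩ := DECOMP (RR n) (HH r n) (HH_inv r n)
  have key := hdec (k + l) y (fun _ => 1) (c1 c k (l * ε)) (fun _ => zero_le_one) ?_ v hv
  · simp only [one_mul] at key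
    exact key
  · intro i w hw
    have hirr := AMP1.irr_res (RR n) (W i) (hW i).1
    have hne : ∃ u : W i, u ≠ 0 := by
      by_contra hcon
      push Not at hcon
      apply (hW i).1.1
      rw [Submodule.eq_bot_iff]
      intro x hx
      exact congrArg Subtype.val (hcon ⟨x, hx⟩)
    obtain ⟨u, hu, hu2⟩ := LL14.HIGHNx.highA N hN n hn (res (RR n) (W i) (hW i).1.2.1) hne (by
      intro K hK x hx
      have := NOINV n r (x : FA n) ((hW i).2 x.2) K (hr _ hK) (by
        intro h hh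
        have h1 := congrArg Subtype.val (hx h hh)
        exact h1)
      exact Subtype.ext this)
    have h1 := irr_caseL hn hR t (7 * (N : ℝ)) (by
      have : (100 : ℝ) ≤ N := by exact_mod_cast hN
      linarith) (res (RR n) (W i) (hW i).1.2.1) hirr u hu hu2 ht L htm x c hc hgap s (l * ε)
      (by positivity) (by
      intro w
      have h2 := kzG hl s ε hs L.subtype (w : FA n)
      have e1 : ((avG (res (RR n) (W i) (hW i).1.2.1) L.subtype w : W i) : FA n) =
          avG (RR n) L.subtype (w : FA n) := by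
        unfold avG
        rw [Submodule.coe_smul, Submodule.coe_sum]
        rfl
      have e2 : ‖avG (res (RR n) (W i) (hW i).1.2.1) L.subtype w - w‖ =
          ‖avG (RR n) L.subtype (w : FA n) - (w : FA n)‖ := by
        rw [Submodule.coe_norm, Submodule.coe_sub, e1]
      have e3 : En (res (RR n) (W i) (hW i).1.2.1) (fun i => L.subtype (s i)) w =
          En (RR n) (fun i => L.subtype (s i)) (w : FA n) := by
        unfold En
        refine Finset.sum_congr rfl fun j _ => ?_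
        rw [Submodule.coe_norm, Submodule.coe_sub, res_apply]
      rw [e2, e3]
      have h3 : 0 ≤ ‖avG (RR n) L.subtype (w : FA n) - (w : FA n)‖ ^ 2 := by positivity
      rw [div_mul_eq_mul_div, le_div_iff₀ (by positivity)]
      have h4 := RC14.En_nonneg (RR n) (fun i => L.subtype (s i)) (w : FA n)
      linarith) ⟨w, hw⟩
    simp only [one_mul]
    rw [← hy] at h1
    have e1 : ‖(⟨w, hw⟩ : W i)‖ = ‖w‖ := rfl
    rw [e1] at h1
    refine h1.trans (le_of_eq ?_)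
    unfold En
    refine Finset.sum_congr rfl fun j _ => ?_
    rw [Submodule.coe_norm, Submodule.coe_sub, res_apply]

/-- the deterministic part -/
theorem detL (δ : ℝ) (hδ : 0 < δ) (hδ1 : δ ≤ 1 / 4) (k : ℕ) (hk : 1 ≤ k) (c : ℝ) (hc : 0 < c) :
    ∀ᶠ n : ℕ in atTop, ∀ x : Fin k → Alt n, Good1 n (Rr (1 - δ / 2) n) c x →
      ∀ (L : Subgroup (Alt n)) [Fintype L], (n : ℝ) ^ (2 + 4 * δ) ≤ n2 (up L) →
      ∀ (l : ℕ), 1 ≤ l → ∀ (s : Fin l → L) (ε : ℝ), 0 < ε → Expanding ε s →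
        Expanding (c1 c k (l * ε) / (2 * (k + l : ℕ)))
          (Fin.append x (fun i => L.subtype (s i))) := by
  have t2 : Tendsto (fun n : ℕ => (n : ℝ)) atTop atTop := tendsto_natCast_atTop_atTop
  have h1 : ∀ᶠ n : ℕ in atTop, 100 ≤ (n : ℝ) ^ (δ / 2) :=
    ((tendsto_rpow_atTop (show (0 : ℝ) < δ / 2 by linarith)).comp t2).eventually_ge_atTop 100
  have h2 : ∀ᶠ n : ℕ in atTop, 9412 ≤ (n : ℝ) ^ δ :=
    ((tendsto_rpow_atTop hδ).comp t2).eventually_ge_atTop _
  filter_upwards [h1, h2, eventually_ge_atTop 1000] with n h1 h2 hn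
  intro x hx L _ hL l hl s ε hε hs
  have hnR : (1000 : ℝ) ≤ n := by exact_mod_cast hn
  have hnp : (0 : ℝ) < n := by linarith
  -- levels
  obtain ⟨P, hP⟩ : ∃ P : ℝ, P = (n : ℝ) ^ (δ / 2) := ⟨_, rfl⟩
  rw [← hP] at h1
  obtain ⟨N, hN⟩ : ∃ N : ℕ, N = ⌈2 * P⌉₊ := ⟨_, rfl⟩
  have hN1 : 2 * P ≤ N := by rw [hN]; exact Nat.le_ceil _
  have hN2 : (N : ℝ) ≤ 3 * P := by
    have := (Nat.ceil_lt_add_one (show 0 ≤ 2 * P by linarith)).le
    rw [← hN] at this
    linarith
  have hN100 : 100 ≤ N := by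
    have : (100 : ℝ) ≤ N := by linarith
    exact_mod_cast this
  have hPP : P * (n : ℝ) ^ (1 - δ / 2) = n := by
    rw [hP, ← Real.rpow_add hnp]
    have : δ / 2 + (1 - δ / 2) = 1 := by ring
    rw [this, Real.rpow_one]
  have hr : ∀ j : ℕ, N * j ≤ n → j ≤ Rr (1 - δ / 2) n := by
    intro j hj
    unfold Rr
    apply Nat.le_floor
    have e1 : (N : ℝ) * j ≤ n := by exact_mod_cast hj
    have e2 : P * j ≤ P * (n : ℝ) ^ (1 - δ / 2) := by
      rw [hPP]
      have : P * (j : ℝ) ≤ N * j := by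
        have hj0 : (0 : ℝ) ≤ j := Nat.cast_nonneg j
        nlinarith
      linarith
    exact le_of_mul_le_mul_left e2 (by linarith)
  -- the number of pairs of each kind
  obtain ⟨Q, hQ⟩ : ∃ Q : ℝ, Q = (n : ℝ) ^ (1 - 2 * δ) := ⟨_, rfl⟩
  have hQ1 : 1 ≤ Q := by rw [hQ]; exact Real.one_le_rpow (by linarith) (by linarith)
  obtain ⟨t, ht⟩ : ∃ t : ℕ, t = ⌈6 * Q⌉₊ := ⟨_, rfl⟩
  have ht1 : 6 * Q ≤ t := by rw [ht]; exact Nat.le_ceil _
  have ht2 : (t : ℝ) ≤ 7 * Q := by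
    have := (Nat.ceil_lt_add_one (show 0 ≤ 6 * Q by linarith)).le
    rw [← ht] at this
    linarith
  obtain ⟨R, hR⟩ : ∃ R : ℕ, R = 224 * N * t + 2 := ⟨_, rfl⟩
  have hRr : ((R * 2 : ℕ) : ℝ) ≤ (n : ℝ) ^ (1 - δ / 2) := by
    have e1 : P * Q * (n : ℝ) ^ δ = (n : ℝ) ^ (1 - δ / 2) := by
      rw [hP, hQ, ← Real.rpow_add hnp, ← Real.rpow_add hnp]
      congr 1; ring
    have e2 : (N : ℝ) * t ≤ 3 * P * (7 * Q) := mul_le_mul hN2 ht2 (by positivity) (by linarith)
    have e3 : (1 : ℝ) ≤ P * Q := by nlinarith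
    have e4 : 9412 * (P * Q) ≤ P * Q * (n : ℝ) ^ δ := by
      have : 0 ≤ P * Q := by linarith
      nlinarith
    rw [← e1, hR]
    push_cast
    linarith
  have hRn : (n : ℝ) ^ (1 - δ / 2) ≤ n / 2 := by
    have : 2 * (n : ℝ) ^ (1 - δ / 2) ≤ P * (n : ℝ) ^ (1 - δ / 2) := by
      apply mul_le_mul_of_nonneg_right _ (by positivity)
      linarith
    rw [hPP] at this
    linarith
  have hR2 : R * 2 + 2 ≤ n := by
    have : ((R * 2 + 2 : ℕ) : ℝ) ≤ n := by
      push_cast at hRr ⊢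
      linarith
    exact_mod_cast this
  have hR3 : R * 2 ≤ Rr (1 - δ / 2) n := by
    unfold Rr
    exact Nat.le_floor hRr
  have hgap := FRV n (R * 2) k hR2 x c (fun j hj1 hj2 => hx j hj1 (hj2.trans hR3))
  have hl' : (0 : ℝ) < l := by exact_mod_cast hl
  obtain ⟨e, he⟩ : ∃ e, e = l * ε := ⟨_, rfl⟩
  have he0 : 0 < e := by rw [he]; positivity
  have hc1 := c1_pos c hc k e he0
  have hc1c : c1 c k e ≤ c := by
    unfold c1
    rw [div_le_iff₀ (by positivity)]
    have e1 : c * (8 / c + (64 * k / c + 4) / e) = 8 + (64 * k + 4 * c) / e := by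
      field_simp
    rw [e1]
    have e2 : 0 ≤ (64 * (k : ℝ) + 4 * c) / e := by positivity
    linarith
  have htt : 32 * (t : ℝ) < (R - 1) * (1 / (7 * (N : ℝ))) := by
    have hN0 : (0 : ℝ) < N := by linarith
    rw [hR, mul_one_div, lt_div_iff₀ (by positivity)]
    push_cast
    linarith
  have htm : 16 * (n : ℝ) ^ 4 ≤ t ^ 2 * n2 (up L) := by
    have e1 : Q ^ 2 * (n : ℝ) ^ (2 + 4 * δ) = (n : ℝ) ^ 4 := by
      rw [hQ, sq, ← Real.rpow_add hnp, ← Real.rpow_add hnp, ← Real.rpow_natCast]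
      congr 1
      push_cast
      ring
    have e2 : (6 * Q) ^ 2 ≤ (t : ℝ) ^ 2 := pow_le_pow_left₀ (by linarith) ht1 2
    calc 16 * (n : ℝ) ^ 4 ≤ 36 * (n : ℝ) ^ 4 := by
          have : (0 : ℝ) ≤ (n : ℝ) ^ 4 := by positivity
          linarith
      _ = (6 * Q) ^ 2 * (n : ℝ) ^ (2 + 4 * δ) := by rw [← e1]; ring
      _ ≤ t ^ 2 * n2 (up L) := by
        apply mul_le_mul e2 hL (by positivity) (by positivity)
  rw [← he]
  refine FRALL n (Rr (1 - δ / 2) n) (k + l) (by omega) _ (c1 c k e) hc1 ?_ ?_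
  · intro j hj1 hj2 f hf
    have e1 := hx j hj1 hj2 f hf
    have e2 : En (repA j n) x f ≤ En (repA j n) (Fin.append x (fun i => L.subtype (s i))) f := by
      rw [En_append]
      have := RC14.En_nonneg (repA j n) (fun i => L.subtype (s i)) f
      linarith
    have e4 : c1 c k e * ‖f‖ ^ 2 ≤ c * ‖f‖ ^ 2 :=
      mul_le_mul_of_nonneg_right hc1c (by positivity)
    linarith
  · intro f hf
    rw [he]
    exact highL hn hR2 t N hN100 hr htt L htm x c hc hgap hl s ε hε hs f hf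

end

end Pool.Agent.H363.DT
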