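import Pool.Agent.H363.DT.Det

/-!
Assembly.
-/

set_option autoImplicit false

namespace Pool.Agent.H363.DT
open RC14 Pool.Agent.K1H7.EP Pool.Agent.K1H7.LE Finset Equiv Filter Topology TE852

noncomputable section

/-- `g` is the product of two disjoint transpositions -/
def IsDouble {n : ℕ} (g : Perm (Fin n)) : Prop :=
  ∃ a b c d : Fin n, [a, b, c, d].Nodup ∧ g = Equiv.swap a b * Equiv.swap c d

/-- the number of products of two disjoint transpositions in `L` -/
def doubles {n : ℕ} (L : Subgroup (Alt n)) : ℕ :=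
  Nat.card {g : Alt n // g ∈ L ∧ IsDouble (g : Perm (Fin n))}

/-- the number of ordered pairs of distinct points of the same colour -/
def mono {n : ℕ} (col : Fin n → ℕ) : ℕ :=
  Nat.card {p : Fin n × Fin n // p.1 ≠ p.2 ∧ col p.1 = col p.2}

section
variable {n : ℕ}

/-- a tuple of four points -/
def tup4 (a b c d : Fin n) (h : [a, b, c, d].Nodup) : Tup (2 * 2) n :=
  ⟨![a, b, c, d], by
    have h' := h
    simp only [List.nodup_cons, List.mem_cons, List.not_mem_nil, or_false, not_or, not_false_eq_true,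
      List.nodup_nil, and_true] at h'
    obtain ⟨⟨h1, h2, h3⟩, ⟨h4, h5⟩, h6⟩ := h'
    have g1 := Ne.symm h1
    have g2 := Ne.symm h2
    have g3 := Ne.symm h3
    have g4 := Ne.symm h4
    have g5 := Ne.symm h5
    have g6 := Ne.symm h6
    intro x y hxy
    fin_cases x <;> fin_cases y <;> first | rfl | (exact absurd hxy h1) | (exact absurd hxy g1) | (exact absurd hxy h2) | (exact absurd hxy g2) | (exact absurd hxy h3) | (exact absurd hxy g3) | (exact absurd hxy h4) | (exact absurd hxy g4) | (exact absurd hxy h5) | (exact absurd hxy g5) | (exact absurd hxy h6) | (exact absurd hxy g6)⟩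

lemma tup4_tr (a b c d : Fin n) (h : [a, b, c, d].Nodup) :
    tr (tup4 a b c d h) 0 * tr (tup4 a b c d h) 1 = Equiv.swap a b * Equiv.swap c d := rfl

lemma doubles_le (L : Subgroup (Alt n)) : doubles L ≤ n2 (up L) := by
  classical
  have h : ∀ g : {g : Alt n // g ∈ L ∧ IsDouble (g : Perm (Fin n))}, ∃ s : Tup (2 * 2) n,
      tr s 0 * tr s 1 = (g.1 : Perm (Fin n)) := by
    rintro ⟨g, hg, a, b, c, d, hn, h⟩
    exact ⟨tup4 a b c d hn, h.symm⟩
  choose F hF using h
  unfold doubles n2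
  rw [cnt_eq, ← Fintype.card_subtype, ← Nat.card_eq_fintype_card]
  refine Nat.card_le_card_of_injective
    (fun g => (⟨F g, ?_⟩ : {s : Tup (2 * 2) n // tr s 0 * tr s 1 ∈ up L})) ?_
  · rw [hF g]
    exact ⟨g.1, g.2.1, rfl⟩
  · intro g g' hgg
    have h1 : F g = F g' := congrArg Subtype.val hgg
    apply Subtype.ext
    apply Subtype.ext
    rw [← hF g, ← hF g', h1]

/-- the even permutations which preserve the colours -/
def stab (col : Fin n → ℕ) : Subgroup (Alt n) where
  carrier := {h | ∀ i, col ((h : Perm (Fin n)) i) = col i}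
  one_mem' := fun _ => rfl
  mul_mem' := by
    intro a b ha hb i
    exact (ha _).trans (hb i)
  inv_mem' := by
    intro a ha i
    have h1 := ha (((a⁻¹ : Alt n) : Perm (Fin n)) i)
    have e : (a : Perm (Fin n)) (((a⁻¹ : Alt n) : Perm (Fin n)) i) = i := by
      change ((a * a⁻¹ : Alt n) : Perm (Fin n)) i = i
      rw [mul_inv_cancel]
      rfl
    rw [e] at h1
    exact h1.symm

lemma col_swap (col : Fin n → ℕ) (a b : Fin n) (h : col a = col b) (i : Fin n) :
    col (Equiv.swap a b i) = col i := by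
  by_cases h1 : i = a
  · rw [h1, swap_apply_left, h]
  · by_cases h2 : i = b
    · rw [h2, swap_apply_right, h]
    · rw [swap_apply_of_ne_of_ne h1 h2]

lemma mono_n2 (col : Fin n → ℕ) (h : 8 * n ≤ mono col) :
    mono col * mono col ≤ 2 * n2 (up (stab col)) := by
  classical
  obtain ⟨E, hE⟩ : ∃ E : Finset (Fin n × Fin n),
    E = univ.filter fun p => p.1 ≠ p.2 ∧ col p.1 = col p.2 := ⟨_, rfl⟩
  have hm : mono col = #E := by
    unfold mono
    rw [Nat.card_eq_fintype_card, Fintype.card_subtype, hE]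
  have hmem : ∀ p, p ∈ E ↔ p.1 ≠ p.2 ∧ col p.1 = col p.2 := by
    intro p; rw [hE]; simp
  rw [hm] at h ⊢
  -- the pairs which meet a given pair
  obtain ⟨B, hB⟩ : ∃ B : Fin n × Fin n → Finset (Fin n × Fin n), B = fun p =>
    (({p.1, p.2} : Finset (Fin n)) ×ˢ univ) ∪ (univ ×ˢ ({p.1, p.2} : Finset (Fin n))) := ⟨_, rfl⟩
  have hBc : ∀ p, #(B p) ≤ 4 * n := by
    intro p
    rw [hB]
    refine (Finset.card_union_le _ _).trans ?_
    rw [Finset.card_product, Finset.card_product, Finset.card_univ, Fintype.card_fin]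
    have := Finset.card_le_two (a := p.1) (b := p.2)
    nlinarith
  have h1 : #E * (#E - 4 * n) ≤ #(E.sigma fun p => E \ B p) := by
    rw [Finset.card_sigma]
    have e1 : ∀ p ∈ E, #E - 4 * n ≤ #(E \ B p) := by
      intro p _
      have := Finset.le_card_sdiff (B p) E
      have := hBc p
      omega
    calc #E * (#E - 4 * n) = ∑ p ∈ E, (#E - 4 * n) := by rw [Finset.sum_const, smul_eq_mul]
      _ ≤ _ := Finset.sum_le_sum e1
  have h2 : #(E.sigma fun p => E \ B p) ≤ n2 (up (stab col)) := by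
    have hnd : ∀ z ∈ E.sigma fun p => E \ B p,
        [z.1.1, z.1.2, z.2.1, z.2.2].Nodup ∧ col z.1.1 = col z.1.2 ∧ col z.2.1 = col z.2.2 := by
      rintro ⟨⟨a, b⟩, ⟨c, d⟩⟩ hz
      rw [Finset.mem_sigma, Finset.mem_sdiff, hmem, hmem, hB] at hz
      obtain ⟨⟨h3, h4⟩, ⟨h5, h6⟩, h7⟩ := hz
      simp only [Finset.mem_union, Finset.mem_product, Finset.mem_insert, Finset.mem_singleton,
        Finset.mem_univ, and_true, true_and, not_or] at h3 h4 h5 h6 h7
      refine ⟨?_, h4, h6⟩
      simp only [List.nodup_cons, List.mem_cons, List.not_mem_nil, or_false, not_or,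
        not_false_eq_true, List.nodup_nil, and_true]
      exact ⟨⟨h3, Ne.symm h7.1.1, Ne.symm h7.2.1⟩, ⟨Ne.symm h7.1.2, Ne.symm h7.2.2⟩, h5⟩
    obtain ⟨F, hF⟩ : ∃ F : (Σ _ : Fin n × Fin n, Fin n × Fin n) → Option (Tup (2 * 2) n),
      F = fun z => if h : [z.1.1, z.1.2, z.2.1, z.2.2].Nodup then
        some (tup4 z.1.1 z.1.2 z.2.1 z.2.2 h) else none := ⟨_, rfl⟩
    unfold n2
    rw [cnt_eq]
    refine le_trans ?_ (le_of_eq (Finset.card_map Function.Embedding.some))
    refine Finset.card_le_card_of_injOn F ?_ ?_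
    · intro z hz
      obtain ⟨h3, h4, h5⟩ := hnd z hz
      rw [Finset.mem_coe, Finset.mem_map]
      refine ⟨tup4 z.1.1 z.1.2 z.2.1 z.2.2 h3, ?_, ?_⟩
      · rw [Finset.mem_filter]
        refine ⟨Finset.mem_univ _, ?_⟩
        rw [tup4_tr]
        have hne : z.1.1 ≠ z.1.2 ∧ z.2.1 ≠ z.2.2 := by
          simp only [List.nodup_cons, List.mem_cons, List.not_mem_nil, or_false, not_or,
            not_false_eq_true, List.nodup_nil, and_true] at h3
          exact ⟨h3.1.1, h3.2.2⟩
        refine ⟨⟨Equiv.swap z.1.1 z.1.2 * Equiv.swap z.2.1 z.2.2, ?_⟩, ?_, rfl⟩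
        · rw [Perm.mem_alternatingGroup, Perm.sign_mul, Perm.sign_swap hne.1,
            Perm.sign_swap hne.2]
          decide
        · intro i
          change col (Equiv.swap z.1.1 z.1.2 (Equiv.swap z.2.1 z.2.2 i)) = col i
          rw [col_swap col _ _ h4, col_swap col _ _ h5]
      · rw [hF]
        simp only [dif_pos h3]
        rfl
    · intro z hz z' hz' hzz
      obtain ⟨h3, -⟩ := hnd z hz
      obtain ⟨h3', -⟩ := hnd z' hz'
      rw [hF] at hzz
      simp only [dif_pos h3, dif_pos h3', Option.some.injEq] at hzz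
      have e0 : z.1.1 = z'.1.1 := DFunLike.congr_fun hzz 0
      have e1 : z.1.2 = z'.1.2 := DFunLike.congr_fun hzz 1
      have e2 : z.2.1 = z'.2.1 := DFunLike.congr_fun hzz 2
      have e3 : z.2.2 = z'.2.2 := DFunLike.congr_fun hzz 3
      obtain ⟨⟨a, b⟩, ⟨c, d⟩⟩ := z
      obtain ⟨⟨a', b'⟩, ⟨c', d'⟩⟩ := z'
      dsimp only at e0 e1 e2 e3
      subst e0 e1 e2 e3
      rfl
  have h3 : #E * #E ≤ 2 * (#E * (#E - 4 * n)) := by
    have e1 : #E ≤ 2 * (#E - 4 * n) := by omega
    calc #E * #E ≤ #E * (2 * (#E - 4 * n)) := Nat.mul_le_mul_left _ e1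
      _ = _ := by ring
  omega

end

/-! ### the core property -/

/-- the core property -/
def Core {n k : ℕ} (δ c : ℝ) (x : Fin k → Alt n) : Prop :=
  ∀ (L : Subgroup (Alt n)) [Fintype L], (n : ℝ) ^ (2 + δ) ≤ n2 (up L) →
    ∀ (l : ℕ), 1 ≤ l → ∀ (s : Fin l → L) (ε : ℝ), 0 < ε → Expanding ε s →
      Expanding (c * min ε (1 / (l : ℝ))) (Fin.append x fun i => (s i : Alt n))

/-- the list of all elements is perfectly expanding -/
lemma all_expanding {G : Type*} [Group G] [Fintype G] :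
    ∃ (l : ℕ) (_ : 1 ≤ l) (s : Fin l → G), Expanding 1 s := by
  have hc : 0 < Fintype.card G := Fintype.card_pos
  obtain ⟨e⟩ : Nonempty (Fin (Fintype.card G) ≃ G) := ⟨(Fintype.equivFin G).symm⟩
  refine ⟨Fintype.card G, hc, e, ?_, fun f hf => ?_⟩
  · rw [e.surjective.range_eq]
    exact Subgroup.closure_univ
  · have h1 : ∀ g, walk e f g = 0 := by
      intro g
      unfold walk
      have e1 : ∑ i, (f (g * e i) + f (g * (e i)⁻¹)) = 0 := by
        rw [Finset.sum_add_distrib]
        have e2 : ∑ i, f (g * e i) = 0 := by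
          rw [← hf, Equiv.sum_comp e (fun h => f (g * h))]
          exact Equiv.sum_comp (Equiv.mulLeft g) f
        have e3 : ∑ i, f (g * (e i)⁻¹) = 0 := by
          rw [← hf, Equiv.sum_comp e (fun h => f (g * h⁻¹))]
          exact Equiv.sum_comp ((Equiv.inv G).trans (Equiv.mulLeft g)) f
        rw [e2, e3, add_zero]
      rw [e1, zero_div]
    simp only [h1, mul_zero, Finset.sum_const_zero, sub_self, zero_mul, le_refl]

/-- functions which are invariant under the subgroup -/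
lemma core_inv {n k : ℕ} (hk : 1 ≤ k) (δ c : ℝ) (hc : 0 < c) (x : Fin k → Alt n) (h : Core δ c x)
    (L : Subgroup (Alt n)) (hL : (n : ℝ) ^ (2 + δ) ≤ n2 (up L)) (f : Alt n → ℝ)
    (hf : ∑ g, f g = 0) (hinv : ∀ h ∈ L, ∀ g, f (g * h) = f g) :
    ∑ g, f g * walk x f g ≤ (1 - c / k) * ∑ g, f g ^ 2 := by
  classical
  have : Fintype L := Fintype.ofFinite _
  obtain ⟨l, hl, s, hs⟩ := all_expanding (G := L)
  have h1 := h L hL l hl s 1 one_pos hs
  have hl' : (1 : ℝ) ≤ l := by exact_mod_cast hl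
  have hk' : (1 : ℝ) ≤ k := by exact_mod_cast hk
  have h2 := h1.2 f hf
  rw [walk_idG (by omega)] at h2
  have h3 : ∑ i, ∑ g, (f (g * Fin.append x (fun i => (s i : Alt n)) i) - f g) ^ 2 =
      ∑ i, ∑ g, (f (g * x i) - f g) ^ 2 := by
    rw [Fin.sum_univ_add]
    have e1 : ∑ i : Fin l, ∑ g, (f (g * Fin.append x (fun i => (s i : Alt n))
        (Fin.natAdd k i)) - f g) ^ 2 = 0 := by
      refine Finset.sum_eq_zero fun i _ => Finset.sum_eq_zero fun g _ => ?_
      rw [Fin.append_right, hinv _ (s i).2, sub_self]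
      norm_num
    rw [e1, add_zero]
    refine Finset.sum_congr rfl fun i _ => ?_
    rw [Fin.append_left]
  rw [h3] at h2
  rw [walk_idG hk]
  obtain ⟨A, hA⟩ : ∃ A, A = ∑ i, ∑ g, (f (g * x i) - f g) ^ 2 := ⟨_, rfl⟩
  obtain ⟨S, hS⟩ : ∃ S, S = ∑ g, f g ^ 2 := ⟨_, rfl⟩
  have hS0 : 0 ≤ S := by rw [hS]; positivity
  rw [← hA, ← hS] at h2 ⊢
  have hmin : min 1 (1 / (l : ℝ)) = 1 / l := by
    apply min_eq_right
    rw [div_le_one (by linarith)]
    exact hl'
  rw [hmin] at h2
  have h4 : c * (1 / l) * S ≤ A / (2 * ((k + l : ℕ) : ℝ)) := by linarith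
  have h5 : 2 * c * S ≤ A := by
    rw [le_div_iff₀ (by positivity)] at h4
    have e1 : c * (1 / (l : ℝ)) * S * (2 * ((k + l : ℕ) : ℝ)) =
        2 * c * S + 2 * c * S * (k / l) := by
      push_cast
      field_simp
      ring
    rw [e1] at h4
    have e2 : 0 ≤ 2 * c * S * (k / l) := by positivity
    linarith
  have h6 : c / k * S ≤ A / (2 * k) := by
    rw [div_mul_eq_mul_div, div_le_div_iff₀ (by positivity) (by positivity)]
    nlinarith
  linarith

/-- the deterministic theorem -/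
theorem core_det (δ : ℝ) (hδ : 0 < δ) (hδ1 : δ ≤ 1) (k : ℕ) (hk : 1 ≤ k) (c : ℝ) (hc : 0 < c) :
    ∀ᶠ n : ℕ in atTop, ∀ x : Fin k → Alt n, Good1 n (Rr (1 - δ / 8) n) c x →
      Core δ (cfin c k) x := by
  have h := detL (δ / 4) (by linarith) (by linarith) k hk c hc
  have e1 : 1 - δ / 4 / 2 = 1 - δ / 8 := by ring
  have e2 : 2 + 4 * (δ / 4) = 2 + δ := by ring
  rw [e1, e2] at h
  filter_upwards [h] with n hn x hx L _ hL l hl s ε hε hs
  exact expanding_mono _ _ (cfin_le c hc k l hl ε hε) _ (hn x hx L hL l hl s ε hε hs)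

end

end Pool.Agent.H363.DT
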