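import Pool.Agent.H363.DT.Count2
import Pool.Graph.R_pool_sql_team_seeded_efc1946e.K1H7.LE.High

/-!
The energy inequality at high levels, for a subgroup with many double transpositions.
-/

set_option autoImplicit false

namespace Pool.Agent.H363.DT
open RC14 Pool.Agent.K1H7.EP Pool.Agent.K1H7.LE Finset Equiv
open scoped InnerProductSpace ComplexConjugate

noncomputable section

/-! ### the gap of a tuple in an arbitrary finite group -/

section
variable {G : Type*} [Group G] [Fintype G]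

lemma walk_idG {k : ℕ} (hk : 1 ≤ k) (x : Fin k → G) (f : G → ℝ) :
    ∑ g, f g * walk x f g =
      ∑ g, f g ^ 2 - (∑ i, ∑ g, (f (g * x i) - f g) ^ 2) / (2 * k) := by
  have hk' : (0 : ℝ) < 2 * k := by positivity
  have sumR : ∀ (s : G) (F : G → ℝ), ∑ g, F (g * s) = ∑ g, F g := fun s F =>
    Equiv.sum_comp (Equiv.mulRight s) F
  rw [eq_sub_iff_add_eq, ← mul_left_inj' hk'.ne', add_mul, div_mul_cancel₀ _ hk'.ne']
  have h1 : (∑ g, f g * walk x f g) * (2 * k) =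
      ∑ i, ∑ g, (f g * f (g * x i) + f g * f (g * (x i)⁻¹)) := by
    rw [Finset.sum_mul, Finset.sum_comm]
    refine Finset.sum_congr rfl fun g _ => ?_
    rw [walk, mul_assoc, div_mul_cancel₀ _ hk'.ne', Finset.mul_sum]
    exact Finset.sum_congr rfl fun i _ => by ring
  rw [h1, ← Finset.sum_add_distrib]
  have h2 : ∀ i, ∑ g, (f g * f (g * x i) + f g * f (g * (x i)⁻¹)) +
      ∑ g, (f (g * x i) - f g) ^ 2 = 2 * ∑ g, f g ^ 2 := by
    intro i
    have e1 : ∑ g, f g * f (g * (x i)⁻¹) = ∑ g, f (g * x i) * f g := by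
      rw [← sumR (x i)]
      exact Finset.sum_congr rfl fun g _ => by simp
    have e2 : ∑ g, f (g * x i) ^ 2 = ∑ g, f g ^ 2 := sumR (x i) (fun g => f g ^ 2)
    rw [Finset.sum_add_distrib, e1]
    have e3 : ∑ g, (f (g * x i) - f g) ^ 2 =
        ∑ g, f (g * x i) ^ 2 - 2 * ∑ g, f (g * x i) * f g + ∑ g, f g ^ 2 := by
      rw [Finset.mul_sum, ← Finset.sum_sub_distrib, ← Finset.sum_add_distrib]
      exact Finset.sum_congr rfl fun g _ => by ring
    have e4 : ∑ g, f g * f (g * x i) = ∑ g, f (g * x i) * f g :=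
      Finset.sum_congr rfl fun g _ => by ring
    rw [e3, e2, e4]
    ring
  rw [Finset.sum_congr rfl fun i _ => h2 i]
  simp
  ring

lemma gapR {l : ℕ} (hl : 1 ≤ l) (s : Fin l → G) (ε : ℝ) (hs : Expanding ε s) (f : G → ℝ)
    (hf : ∑ g, f g = 0) :
    2 * l * ε * ∑ g, f g ^ 2 ≤ ∑ i, ∑ g, (f (g * s i) - f g) ^ 2 := by
  have hl' : (0 : ℝ) < 2 * l := by
    have : (0 : ℝ) < l := by exact_mod_cast hl
    linarith
  have e1 := hs.2 f hf
  rw [walk_idG hl] at e1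
  have e2 : ε * ∑ g, f g ^ 2 ≤ (∑ i, ∑ g, (f (g * s i) - f g) ^ 2) / (2 * l) := by linarith
  rw [le_div_iff₀ hl'] at e2
  linarith

lemma gapC {l : ℕ} (hl : 1 ≤ l) (s : Fin l → G) (ε : ℝ) (hs : Expanding ε s) (F : G → ℂ)
    (hF : ∑ g, F g = 0) :
    2 * l * ε * ∑ g, ‖F g‖ ^ 2 ≤ ∑ i, ∑ g, ‖F (g * s i) - F g‖ ^ 2 := by
  have h1 := gapR hl s ε hs (fun g => (F g).re) (by rw [← Complex.re_sum, hF, Complex.zero_re])
  have h2 := gapR hl s ε hs (fun g => (F g).im) (by rw [← Complex.im_sum, hF, Complex.zero_im])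
  have e : ∀ z : ℂ, ‖z‖ ^ 2 = z.re ^ 2 + z.im ^ 2 := by
    intro z
    rw [← Complex.normSq_eq_norm_sq, Complex.normSq_apply]; ring
  have h3 : ∑ g, ‖F g‖ ^ 2 = ∑ g, (F g).re ^ 2 + ∑ g, (F g).im ^ 2 := by
    rw [← Finset.sum_add_distrib]
    exact Finset.sum_congr rfl fun g _ => e _
  have h4 : ∑ i, ∑ g, ‖F (g * s i) - F g‖ ^ 2 =
      ∑ i, ∑ g, ((F (g * s i)).re - (F g).re) ^ 2 +
      ∑ i, ∑ g, ((F (g * s i)).im - (F g).im) ^ 2 := by
    rw [← Finset.sum_add_distrib]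
    refine Finset.sum_congr rfl fun i _ => ?_
    rw [← Finset.sum_add_distrib]
    refine Finset.sum_congr rfl fun g _ => ?_
    rw [e, Complex.sub_re, Complex.sub_im]
  rw [h3, h4, mul_add]
  linarith

variable {n : ℕ} {V : Type*} [NormedAddCommGroup V] [InnerProductSpace ℂ V]

/-- the average over a group -/
def avG (ρ : Alt n →* (V ≃ₗᵢ[ℂ] V)) (φ : G →* Alt n) (v : V) : V :=
  (1 / (Fintype.card G : ℂ)) • ∑ g : G, ρ (φ g) v

lemma avG_inv (ρ : Alt n →* (V ≃ₗᵢ[ℂ] V)) (φ : G →* Alt n) (v : V) (e : G) :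
    ρ (φ e) (avG ρ φ v) = avG ρ φ v := by
  unfold avG
  rw [map_smul, map_sum]
  congr 1
  rw [← Equiv.sum_comp (Equiv.mulLeft e) (fun g => ρ (φ g) v)]
  refine Finset.sum_congr rfl fun g _ => ?_
  rw [Equiv.coe_mulLeft, map_mul φ, map_mul]
  rfl

/-- the distance to the invariant vectors is bounded by the displacements -/
theorem kzG {l : ℕ} (hl : 1 ≤ l) (s : Fin l → G) (ε : ℝ) (hs : Expanding ε s) (φ : G →* Alt n)
    (f : FA n) :
    2 * l * ε * ‖avG (RR n) φ f - f‖ ^ 2 ≤ En (RR n) (fun i => φ (s i)) f := by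
  have hc : (0 : ℝ) < Fintype.card G := by exact_mod_cast (Fintype.card_pos (α := G))
  have hc' : (Fintype.card G : ℂ) ≠ 0 := by
    exact_mod_cast (Fintype.card_pos (α := G)).ne'
  obtain ⟨m, hm⟩ : ∃ m : FA n, m = avG (RR n) φ f := ⟨_, rfl⟩
  rw [← hm]
  have hinv : ∀ (g : G) (h : Alt n), m (h * φ g) = m h := by
    intro g h
    have e1 := avG_inv (RR n) φ f g
    rw [← hm] at e1
    have e2 := congrArg (fun z : FA n => z h) e1
    simp only [RR_apply] at e2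
    exact e2
  have hsum : ∀ h : Alt n, ∑ g : G, f (h * φ g) = Fintype.card G * m h := by
    intro h
    have e1 : m h = (1 / (Fintype.card G : ℂ)) * ∑ g : G, f (h * φ g) := by
      rw [hm, avG, PiLp.smul_apply, smul_eq_mul]
      congr 1
      have : (∑ g : G, RR n (φ g) f) h = ∑ g : G, (RR n (φ g) f) h := by
        simp
      rw [this]
      exact Finset.sum_congr rfl fun g _ => RR_apply _ _ _
    rw [e1, ← mul_assoc, mul_one_div_cancel hc', one_mul]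
  have h1 : ∀ h : Alt n, 2 * l * ε * ∑ g : G, ‖f (h * φ g) - m h‖ ^ 2 ≤
      ∑ i, ∑ g : G, ‖f (h * φ g * φ (s i)) - f (h * φ g)‖ ^ 2 := by
    intro h
    have e1 := gapC hl s ε hs (fun g => f (h * φ g) - m h) (by
      rw [Finset.sum_sub_distrib, hsum, Finset.sum_const, Finset.card_univ, nsmul_eq_mul,
        sub_self])
    refine e1.trans (le_of_eq ?_)
    refine Finset.sum_congr rfl fun i _ => Finset.sum_congr rfl fun g _ => ?_
    rw [map_mul, mul_assoc]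
    congr 2
    ring
  have h2 : ∑ h : Alt n, ∑ g : G, ‖f (h * φ g) - m h‖ ^ 2 = Fintype.card G * ‖m - f‖ ^ 2 := by
    rw [Finset.sum_comm]
    have e1 : ∀ g : G, ∑ h : Alt n, ‖f (h * φ g) - m h‖ ^ 2 = ‖m - f‖ ^ 2 := by
      intro g
      rw [EuclideanSpace.norm_sq_eq, ← Equiv.sum_comp (Equiv.mulRight (φ g))
        (fun h => ‖(m - f) h‖ ^ 2)]
      refine Finset.sum_congr rfl fun h _ => ?_
      rw [Equiv.coe_mulRight, PiLp.sub_apply, hinv g h, norm_sub_rev]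
    rw [Finset.sum_congr rfl fun g _ => e1 g, Finset.sum_const, Finset.card_univ, nsmul_eq_mul]
  have h3 : ∑ h : Alt n, ∑ i, ∑ g : G, ‖f (h * φ g * φ (s i)) - f (h * φ g)‖ ^ 2 =
      Fintype.card G * En (RR n) (fun i => φ (s i)) f := by
    rw [Finset.sum_comm, En, Finset.mul_sum]
    refine Finset.sum_congr rfl fun i _ => ?_
    rw [Finset.sum_comm]
    have e1 : ∀ g : G, ∑ h : Alt n, ‖f (h * φ g * φ (s i)) - f (h * φ g)‖ ^ 2 =
        ‖RR n (φ (s i)) f - f‖ ^ 2 := by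
      intro g
      rw [EuclideanSpace.norm_sq_eq, ← Equiv.sum_comp (Equiv.mulRight (φ g))
        (fun h => ‖(RR n (φ (s i)) f - f) h‖ ^ 2)]
      refine Finset.sum_congr rfl fun h _ => ?_
      rw [Equiv.coe_mulRight, PiLp.sub_apply, RR_apply]
    rw [Finset.sum_congr rfl fun g _ => e1 g, Finset.sum_const, Finset.card_univ, nsmul_eq_mul]
  have h4 : Fintype.card G * (2 * l * ε * ‖m - f‖ ^ 2) ≤
      Fintype.card G * En (RR n) (fun i => φ (s i)) f := by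
    rw [← h3]
    calc Fintype.card G * (2 * l * ε * ‖m - f‖ ^ 2)
        = 2 * l * ε * (Fintype.card G * ‖m - f‖ ^ 2) := by ring
      _ = ∑ h : Alt n, 2 * l * ε * ∑ g : G, ‖f (h * φ g) - m h‖ ^ 2 := by
        rw [← h2, Finset.mul_sum]
      _ ≤ _ := Finset.sum_le_sum fun h _ => h1 h
  exact le_of_mul_le_mul_left h4 hc

end

/-! ### the subgroup and the tuples of pairs -/

section
variable {R n : ℕ} {V : Type*} [NormedAddCommGroup V] [InnerProductSpace ℂ V]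

/-- the image of a subgroup of `A_n` in the symmetric group -/
def up (L : Subgroup (Alt n)) : Subgroup (Perm (Fin n)) := L.map (Subgroup.subtype _)

/-- vanishing of the spectral component -/
theorem Es_zeroL (L : Subgroup (Alt n)) (ρ : Alt n →* (V ≃ₗᵢ[ℂ] V)) (v : V)
    (hv : ∀ e ∈ L, ρ e v = v) (i0 : Fin R) (χ : AddChar (Ev R) ℂ)
    (J : Tup (R * 2) n) (hJ : ∃ i ∈ Ip i0 χ, ∃ j ∈ Im i0 χ, tr J i * tr J j ∈ up L) :
    Es ρ (ta J) χ v = 0 := by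
  obtain ⟨i, hi, j, hj, hij⟩ := hJ
  have hne : i ≠ j := by
    rintro rfl
    have h1 := (mem_Ip i0 χ i).1 hi
    have h2 := (mem_Im i0 χ i).1 hj
    rw [h1] at h2
    norm_num at h2
  obtain ⟨e, heL, he⟩ := hij
  have he' : e = ta J (pe i j) := by
    apply Subtype.ext
    rw [ta_tr J i j hne]
    exact he
  have h1 := Es_tau ρ (ta J) (ta_add J) χ (pe i j) v
  rw [← he', hv e heL, chi_neg i0 χ i j hi hj, neg_smul, one_smul] at h1
  have h2 : (2 : ℂ) • Es ρ (ta J) χ v = 0 := by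
    rw [two_smul]
    nth_rewrite 1 [h1]
    exact neg_add_cancel _
  exact (smul_eq_zero.1 h2).resolve_left two_ne_zero

lemma Ip_Im_disj (i0 : Fin R) (χ : AddChar (Ev R) ℂ) : Disjoint (Ip i0 χ) (Im i0 χ) := by
  rw [Finset.disjoint_left]
  intro i hi hj
  have h1 := (mem_Ip i0 χ i).1 hi
  have h2 := (mem_Im i0 χ i).1 hj
  rw [h1] at h2
  norm_num at h2

variable [FiniteDimensional ℂ V]

/-- **the irreducible case** -/
theorem irr_caseL {k l R : ℕ} (hn : 1000 ≤ n) (hR : R * 2 + 2 ≤ n) (t : ℕ) (N : ℝ)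
    (hN : 0 < N)
    (ρ : Alt n →* (V ≃ₗᵢ[ℂ] V)) (hirr : Irr ρ ⊤) (u : V) (hu0 : u ≠ 0)
    (hu : 1 / N * ‖u‖ ^ 2 * Fintype.card (Tup 3 n) ≤ ∑ s : Tup 3 n, ‖ρ (c3 s) u - u‖ ^ 2)
    (ht : 32 * (t : ℝ) < (R - 1) * (1 / N))
    (L : Subgroup (Alt n)) [Fintype L] (htm : 16 * (n : ℝ) ^ 4 ≤ t ^ 2 * n2 (up L))
    (x : Fin k → Alt n) (c : ℝ) (hc : 0 < c)
    (hgap : ∀ f : RC14.V (R * 2) n, ∑ a, f a = 0 → c * ‖f‖ ^ 2 ≤ En (repA (R * 2) n) x f)
    (s : Fin l → L) (e : ℝ) (he : 0 < e)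
    (hkz : ∀ w : V, ‖avG ρ L.subtype w - w‖ ^ 2 ≤
      2 / e * En ρ (fun i => L.subtype (s i)) w) (w : V) :
    c1 c k e * ‖w‖ ^ 2 ≤ En ρ (Fin.append x (fun i => L.subtype (s i))) w := by
  classical
  have hRpos : 0 < R := by
    by_contra h
    have : R = 0 := by omega
    subst this
    have h1 : (0 : ℝ) ≤ 32 * t := by positivity
    have h2 : ((0 : ℕ) - 1 : ℝ) * (1 / N) ≤ 0 := by
      have : 0 ≤ 1 / N := by positivity
      push_cast; nlinarith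
    linarith
  have hT : 0 < Fintype.card (Tup (R * 2) n) := by
    have : Nonempty (Tup (R * 2) n) := ⟨Fin.castLEEmb (by omega)⟩
    exact Fintype.card_pos
  obtain ⟨i0, -⟩ : ∃ i0 : Fin R, True := ⟨⟨0, hRpos⟩, trivial⟩
  obtain ⟨χ, hp, hmi, c0, hc0, hsc⟩ := exists_bal (by omega) ρ hirr t (by omega) i0 (1 / N) u hu0
    hu ht
  obtain ⟨Ex, hEx⟩ : ∃ Ex, Ex = En ρ x w := ⟨_, rfl⟩
  obtain ⟨Ey, hEy⟩ : ∃ Ey, Ey = En ρ (fun i => L.subtype (s i)) w := ⟨_, rfl⟩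
  have hEx0 : 0 ≤ Ex := by rw [hEx]; exact RC14.En_nonneg _ _ _
  have hEy0 : 0 ≤ Ey := by rw [hEy]; exact RC14.En_nonneg _ _ _
  rw [En_append, ← hEx, ← hEy]
  obtain ⟨w', hw'⟩ : ∃ w', w' = avG ρ L.subtype w := ⟨_, rfl⟩
  have h3' : ‖w' - w‖ ^ 2 ≤ 2 / e * Ey := by
    rw [hw', hEy]
    exact hkz w
  have hin : ∀ g ∈ L, ρ g w' = w' := by
    intro g hg
    rw [hw']
    exact avG_inv ρ L.subtype w ⟨g, hg⟩
  have hz : 2 * #(univ.filter fun J : Tup (R * 2) n => Es ρ (ta J) χ w' ≠ 0) ≤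
      Fintype.card (Tup (R * 2) n) := by
    have e1 := count2 (up L) (by omega) hn (Ip i0 χ) (Im i0 χ) (Ip_Im_disj i0 χ) t hp hmi htm
    have e2 := cnt_mono (fun J : Tup (R * 2) n => Es ρ (ta J) χ w' ≠ 0)
      (fun J : Tup (R * 2) n => ¬ ∃ i ∈ Ip i0 χ, ∃ j ∈ Im i0 χ, tr J i * tr J j ∈ up L)
      (fun J hJ h => hJ (Es_zeroL L ρ w' hin i0 χ J h))
    rw [cnt_eq (fun J : Tup (R * 2) n => Es ρ (ta J) χ w' ≠ 0)] at e2
    omega
  have h6 := hole x c hc.le hgap hT ρ χ c0 hc0 hsc w' hz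
  have h7 := En_cmp ρ x w w'
  rw [← hEx] at h7
  have h9 : ‖w'‖ ^ 2 ≤ 2 / c * (2 * Ex + 16 * k / e * Ey) := by
    have e1 : En ρ x w' ≤ 2 * Ex + 16 * k / e * Ey := by
      have e2 : 8 * (k : ℝ) * ‖w' - w‖ ^ 2 ≤ 8 * k * (2 / e * Ey) :=
        mul_le_mul_of_nonneg_left h3' (by positivity)
      calc En ρ x w' ≤ 2 * Ex + 8 * k * ‖w' - w‖ ^ 2 := h7
        _ ≤ 2 * Ex + 8 * k * (2 / e * Ey) := by linarith
        _ = _ := by ring
    calc ‖w'‖ ^ 2 = 2 / c * (c / 2 * ‖w'‖ ^ 2) := by field_simp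
      _ ≤ 2 / c * (2 * Ex + 16 * k / e * Ey) :=
        mul_le_mul_of_nonneg_left (h6.trans e1) (by positivity)
  have h10 : ‖w‖ ^ 2 ≤ 2 * ‖w'‖ ^ 2 + 2 * ‖w' - w‖ ^ 2 := by
    have e1 : ‖w‖ ≤ ‖w'‖ + ‖w' - w‖ := by
      have : w = w' - (w' - w) := by abel
      calc ‖w‖ = ‖w' - (w' - w)‖ := by rw [← this]
        _ ≤ _ := norm_sub_le _ _
    nlinarith [sq_nonneg (‖w'‖ - ‖w' - w‖), norm_nonneg w]
  have h11 : ‖w‖ ^ 2 ≤ (8 / c + (64 * k / c + 4) / e) * (Ex + Ey) := by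
    have e1 : 0 ≤ 8 / c * Ey := by positivity
    have e2 : 0 ≤ (64 * k / c + 4) / e * Ex := by positivity
    calc ‖w‖ ^ 2 ≤ 2 * ‖w'‖ ^ 2 + 2 * ‖w' - w‖ ^ 2 := h10
      _ ≤ 2 * (2 / c * (2 * Ex + 16 * k / e * Ey)) + 2 * (2 / e * Ey) := by linarith
      _ = 8 / c * Ex + (64 * k / c + 4) / e * Ey := by ring
      _ ≤ _ := by linarith
  unfold c1
  rw [one_div, inv_mul_le_iff₀ (by positivity)]
  exact h11

end

end

end Pool.Agent.H363.DT
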